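import Mathlib
import Pool.Agent.MP_154433_an.t3a.FinA
import Pool.Agent.MP_154433_an.t3a.FinB

section PkSpecA

/-! The last step for dissociated families: definitions and statements of the algebraic rows. -/

set_option autoImplicit false
set_option linter.unusedVariables false

open MeasureTheory Filter Topology Set
open scoped ENNReal

namespace Pool.Agent.MP_154433_an.T5A

noncomputable section

/-- no signed relation modulo `n` among the members of the family `v` with index in `S` -/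
def Dis {V : Type} [AddCommGroup V] (n : V → Prop) (v : ℤ → V) (S : Finset ℤ) : Prop :=
  ∀ P ∈ S.powerset, ∀ Q ∈ S.powerset, Disjoint P Q → (P ∪ Q).Nonempty →
    ¬ n (∑ d ∈ P, v d - ∑ d ∈ Q, v d)

open Classical in
/-- `K` dissociated classes cover the nontrivial members up to weight `ε` -/
def Cov {V : Type} [AddCommGroup V] (n : V → Prop) (v : ℤ → V) (sp : Finset ℤ) (w : ℤ → ℝ)
    (K : ℕ) (ε : ℝ) : Prop :=
  ∃ S : Fin K → Finset ℤ, (∀ i, Dis n v (S i)) ∧
    ∑ d ∈ sp.filter (fun d => ¬ n (v d) ∧ ∀ i, d ∉ S i), w d ≤ ε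

/-- probability weights on a finite set -/
def Pw (sp : Finset ℤ) (w : ℤ → ℝ) : Prop := (∀ d, 0 ≤ w d) ∧ ∑ d ∈ sp, w d = 1

/-- no signed relation among the members with index in `S` -/
def Sep {A : Type} [AddCommGroup A] (v : ℤ → A) (S : Set ℤ) : Prop :=
  ∀ P Q : Finset ℤ, (P : Set ℤ) ⊆ S → (Q : Set ℤ) ⊆ S → Disjoint P Q →
    ∑ d ∈ P, v d = ∑ d ∈ Q, v d → P = ∅ ∧ Q = ∅

/-- finitely many classes without relations -/
def Col {A : Type} [AddCommGroup A] (v : ℤ → A) : Prop :=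
  ∃ (ι : Type) (_ : Finite ι) (col : ℤ → ι), ∀ j, Sep v {d | col d = j}

/-- multiplicative up to a finite set -/
def QH {Q : Type} [CommGroup Q] (c : ℤ → Q) : Prop :=
  ∃ D : Set Q, D.Finite ∧ ∀ n m, c (n + m) * (c n)⁻¹ * (c m)⁻¹ ∈ D

/-- uniform escape to infinity -/
def Esc (φ : ℤ → ℝ) : Prop :=
  ∀ R : ℝ, ∃ L : ℕ, 0 < L ∧ ∀ d d' : ℤ, d + L ≤ d' → φ d + R ≤ φ d'

/-- almost additive real sequences are bounded or escape -/
def QmS : Prop :=
  ∀ (φ : ℤ → ℝ) (D : ℝ), (∀ n m, |φ (n + m) - φ n - φ m| ≤ D) →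
    (∃ C : ℝ, ∀ n, |φ n| ≤ C) ∨ Esc φ ∨ Esc fun n => -φ n

/-- distinct valuations: no relation -/
def ValS : Prop :=
  ∀ (F : Type) [Field F] (O : ValuationSubring F) (c : ℤ → Fˣ) (S : Set ℤ),
    (∀ d ∈ S, ∀ d' ∈ S, O.valuation (c d : F) = O.valuation (c d' : F) → d = d') →
    Sep (fun d => (c d : F)) S

/-- a dominant term: no relation -/
def DomS : Prop :=
  ∀ (u : ℤ → ℂ) (S : Set ℤ), (∀ d, u d ≠ 0) →
    (∀ d ∈ S, ∀ d' ∈ S, d ≠ d' → 3 * ‖u d‖ ≤ ‖u d'‖ ∨ 3 * ‖u d'‖ ≤ ‖u d‖) → Sep u S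

/-- bounded under all forms that kill one of the pure subgroups: finitely many classes -/
def DualS : Prop :=
  ∀ (A ι : Type) [AddCommGroup A] [Module.Finite ℤ A] (N : ι → AddSubgroup A) (c : ℤ → A),
    (∀ i (n : ℕ) (a : A), n ≠ 0 → n • a ∈ N i → a ∈ N i) →
    (∀ i (f : A →+ ℤ), (∀ a ∈ N i, f a = 0) → ∃ C : ℤ, ∀ d, |f (c d)| ≤ C) →
    ∃ T : Set ℤ, T.Finite ∧ ∀ d, ∃ e ∈ T, ∀ i, c d - c e ∈ N i

/-- the finite places -/
def NonO : Prop :=
  ∀ (F : Type) [Field F] (c : ℤ → Fˣ), QH c → Col (fun d => (c d : F)) ∨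
    ∃ (T : Set Fˣ) (H : Subgroup Fˣ), T.Finite ∧ H.FG ∧ (∀ u ∈ H, IsIntegral ℤ (u : F)) ∧
      ∀ d, ∃ f ∈ T, c d * f⁻¹ ∈ H

def NonS : Prop := QmS → ValS → DualS → NonO

/-- integral units in positive characteristic -/
def UnpS : Prop :=
  ∀ (F : Type) [Field F] (p : ℕ) [CharP F p], p ≠ 0 → ∀ H : Subgroup Fˣ, H.FG →
    (∀ u ∈ H, IsIntegral ℤ (u : F)) → (H : Set Fˣ).Finite

/-- integral units in characteristic zero: the infinite places -/
def UnzO : Prop :=
  ∀ (F : Type) [Field F] [CharZero F] (H : Subgroup Fˣ) (u : ℤ → Fˣ), H.FG →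
    (∀ a ∈ H, IsIntegral ℤ (a : F)) → (∀ d, u d ∈ H) → QH u →
    (range u).Finite ∨ Col fun d => (u d : F)

def UnzS : Prop := QmS → DomS → UnzO

/-- the lemma on places -/
def PlaceO : Prop :=
  ∀ (F : Type) [Field F] (c : ℤ → Fˣ), QH c → (range c).Finite ∨ Col fun d => (c d : F)

def PlaceS : Prop := NonO → UnpS → UnzO → PlaceO

/-- the same for a module over a commutative group -/
def ModO : Prop :=
  ∀ (Ga G : Type) [AddCommGroup Ga] [CommGroup G] [DistribMulAction G Ga] (S : Set G)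
    (K : Subgroup G) (ct : ℤ → G) (z : Ga), S.Finite → (∀ d, ct d ∈ Subgroup.closure S) →
    QH (fun d => (QuotientGroup.mk (ct d) : G ⧸ K)) → z ≠ 0 → (∀ g ∈ K, g • z = z) →
    (∃ z' : Ga, z' ≠ 0 ∧ (∀ g ∈ K, g • z' = z') ∧ (range fun d => ct d • z').Finite) ∨
      Col fun d => ct d • z

def ModS : Prop := PlaceO → ModO

/-- a tight cocycle with values in a commutative group follows a fixed sequence -/
def DriftS : Prop :=
  ∀ (Om Ga G : Type) [MeasurableSpace Om] (ka : Measure Om) [IsProbabilityMeasure ka]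
    [AddCommGroup Ga] [Countable Ga] [CommGroup G] [DistribMulAction G Ga] (T : ℤ → Om → Om),
    (∀ n, MeasurePreserving (T n) ka ka) →
  ∀ (P : ℤ → Om → G), (∀ n k, ∀ᵐ y ∂ka, P (n + k) y = P n y * P k (T n y)) →
    (∀ (a : Ga) (ε : ℝ≥0∞), 0 < ε → ∃ F : Finset Ga, ∀ n,
      (ka.prod ka) {p | ((P n p.2)⁻¹ * P n p.1) • a ∉ F} ≤ ε) →
  ∀ (x : Om → Ga), (∀ a, NullMeasurableSet {y | x y = a} ka) →
  ∀ η : ℝ≥0∞, 0 < η → η + η + η < 1 →
    ∃ (S : Set G) (K : Subgroup G) (ct : ℤ → G) (Z : Set Ga) (F0 : Set G),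
      S.Finite ∧ (∀ d, ct d ∈ Subgroup.closure S) ∧
      QH (fun d => (QuotientGroup.mk (ct d) : G ⧸ K)) ∧ Z.Finite ∧
      (∀ z ∈ Z, ∀ g ∈ K, g • z = z) ∧ F0.Finite ∧
      (∀ d, ka {y | ¬ ∃ z ∈ Z, P d y • x (T d y) = ct d • z} ≤ η + η) ∧
      ∀ d, ka {y | ¬ ∃ f ∈ F0, ∀ z : Ga, (∀ g ∈ K, g • z = z) → P d y • z = f • ct d • z} ≤ η

/-- covering by the classes of finitely many fixed families -/
def MarkS : Prop :=
  ∀ (Om Ga : Type) [MeasurableSpace Om] (ka : Measure Om) [AddCommGroup Ga] (γ : ℤ → Om → Ga)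
    (Z : Set Ga) (e : ℤ → Ga → Ga) (η : ℝ≥0∞), Z.Finite → (∀ d, e d 0 = 0) →
    (∀ z ∈ Z, z ≠ 0 → Col fun d => e d z) →
    (∀ d, ka {y | ¬ ∃ z ∈ Z, γ d y = e d z} ≤ η) →
    ∃ K : ℕ, ∀ (ε : ℝ) (sp : Finset ℤ) (w : ℤ → ℝ), Pw sp w →
      ENNReal.ofReal ε * ka {y | ¬ Cov (fun a => a = 0) (fun d => γ d y) sp w K ε} ≤ η

/-- a tight cocycle with values in a commutative group that decays is covered -/
def CoreO : Prop :=
  ∀ (Om Ga G : Type) [MeasurableSpace Om] (ka : Measure Om) [IsProbabilityMeasure ka]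
    [AddCommGroup Ga] [Countable Ga] [CommGroup G] [DistribMulAction G Ga] (T : ℤ → Om → Om),
    (∀ n, MeasurePreserving (T n) ka ka) →
  ∀ (P : ℤ → Om → G), (∀ n k, ∀ᵐ y ∂ka, P (n + k) y = P n y * P k (T n y)) →
    (∀ (a : Ga) (ε : ℝ≥0∞), 0 < ε → ∃ F : Finset Ga, ∀ n,
      (ka.prod ka) {p | ((P n p.2)⁻¹ * P n p.1) • a ∉ F} ≤ ε) →
  ∀ (x : Om → Ga), (∀ a, NullMeasurableSet {y | x y = a} ka) →
  ∀ (k : ℕ → ℤ), (∀ a b : Ga, b ≠ 0 → Tendsto (fun i => ka {y | P (k i) y • a = b}) atTop (𝓝 0)) →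
  ∀ (ε : ℝ) (δ : ℝ≥0∞), 0 < ε → 0 < δ → ∃ K : ℕ, ∀ (sp : Finset ℤ) (w : ℤ → ℝ), Pw sp w →
    ka {y | ¬ Cov (fun a => a = 0) (fun d => P d y • x (T d y)) sp w K ε} < δ

def CoreS : Prop := ModO → DriftS → MarkS → CoreO

end

end Pool.Agent.MP_154433_an.T5A

end PkSpecA

section PkQm

/-! Row Qm: almost additive real sequences are bounded or escape. -/

set_option autoImplicit false

namespace Pool.Agent.MP_154433_an.T5A

namespace Qm

theorem esc {φ : ℤ → ℝ} {D : ℝ} (h : ∀ n m, φ n + φ m - D ≤ φ (n + m)) {n : ℤ} (hn : 0 < n)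
    (hD : D < φ n) : Esc φ := by
  intro R
  have st : ∀ (k : ℕ) (d : ℤ), φ d + k * (φ n - D) ≤ φ (d + k * n) := fun k d => by
    induction k with
    | zero => simp
    | succ k ih =>
      have := h (d + k * n) n
      have e : d + ((k + 1 : ℕ) : ℤ) * n = d + k * n + n := by
        push_cast
        ring
      rw [e]
      push_cast
      linarith
  obtain ⟨B, hB⟩ := ((Set.finite_Ico 0 n).image φ).bddBelow
  obtain ⟨k₀, hk⟩ := exists_nat_ge ((R + D - B) / (φ n - D))
  rw [div_le_iff₀ (by linarith)] at hk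
  refine ⟨(k₀ + 1) * n.toNat, Nat.mul_pos k₀.succ_pos (by omega), fun d d' hd => ?_⟩
  have e : (((k₀ + 1) * n.toNat : ℕ) : ℤ) = (k₀ + 1) * n := by
    push_cast
    rw [Int.toNat_of_nonneg hn.le]
  rw [e] at hd
  have h1 : (k₀ : ℤ) ≤ (d' - d) / n := Int.le_ediv_of_mul_le hn (by linarith)
  obtain ⟨k, hk'⟩ := Int.eq_ofNat_of_zero_le ((Int.natCast_nonneg k₀).trans h1)
  have h2 : B ≤ φ ((d' - d) % n) :=
    hB ⟨_, ⟨Int.emod_nonneg _ hn.ne', Int.emod_lt_of_pos _ hn⟩, rfl⟩
  have h3 := st k (d + (d' - d) % n)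
  have h4 : d + (d' - d) % n + k * n = d' := by
    have := Int.emod_add_ediv_mul (d' - d) n
    rw [hk'] at this
    linarith
  have h5 := h d ((d' - d) % n)
  have h6 : (k₀ : ℝ) ≤ k := by
    rw [hk'] at h1
    exact_mod_cast h1
  have h7 : (k₀ : ℝ) * (φ n - D) ≤ k * (φ n - D) := mul_le_mul_of_nonneg_right h6 (by linarith)
  rw [h4] at h3
  linarith

end Qm

theorem xQm : QmS := by
  intro φ D h
  by_cases h1 : ∃ n, 0 < n ∧ D < φ n
  · obtain ⟨n, hn, hD⟩ := h1
    exact .inr (.inl (Qm.esc (fun n m => by linarith [(abs_le.1 (h n m)).1]) hn hD))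
  by_cases h2 : ∃ n, 0 < n ∧ D < -φ n
  · obtain ⟨n, hn, hD⟩ := h2
    exact .inr (.inr (Qm.esc (φ := fun n => -φ n)
      (fun n m => by linarith [(abs_le.1 (h n m)).2]) hn hD))
  push Not at h1 h2
  have h0 := abs_le.1 (h 0 0)
  rw [add_zero] at h0
  refine .inl ⟨3 * D, fun n => abs_le.2 ?_⟩
  rcases lt_trichotomy n 0 with hn | rfl | hn
  · have h3 := abs_le.1 (h n (-n))
    rw [add_neg_cancel] at h3
    have h4 := h1 (-n) (by omega)
    have h5 := h2 (-n) (by omega)
    constructor <;> linarith [h0.1, h0.2, h3.1, h3.2]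
  · constructor <;> linarith [h0.1, h0.2]
  · have h4 := h1 n hn
    have h5 := h2 n hn
    constructor <;> linarith [h0.1, h0.2]

end Pool.Agent.MP_154433_an.T5A

end PkQm

section PkVal

/-! Rows `ValS` and `DomS`: a term of largest size excludes every signed relation. -/

set_option autoImplicit false
set_option linter.unusedVariables false

namespace Pool.Agent.MP_154433_an.T5A

namespace Val

theorem sep_of {A β : Type*} [AddCommGroup A] [LinearOrder β] (v : ℤ → A) (S : Set ℤ)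
    (sz : ℤ → β)
    (h : ∀ d0 ∈ S, ∀ P Q : Finset ℤ, (P : Set ℤ) ⊆ S → (Q : Set ℤ) ⊆ S → Disjoint P Q →
      d0 ∉ P → d0 ∉ Q → (∀ d ∈ P ∪ Q, sz d ≤ sz d0) → v d0 ≠ ∑ d ∈ Q, v d - ∑ d ∈ P, v d)
    (P Q : Finset ℤ) (hP : (P : Set ℤ) ⊆ S) (hQ : (Q : Set ℤ) ⊆ S) (hd : Disjoint P Q)
    (he : ∑ d ∈ P, v d = ∑ d ∈ Q, v d) : P = ∅ ∧ Q = ∅ := by
  have key : ∀ P Q : Finset ℤ, (P : Set ℤ) ⊆ S → (Q : Set ℤ) ⊆ S → Disjoint P Q →
      ∑ d ∈ P, v d = ∑ d ∈ Q, v d → ∀ d0 ∈ P, (∀ d ∈ P ∪ Q, sz d ≤ sz d0) → False := by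
    intro P Q hP hQ hd he d0 h0 hm
    refine h d0 (hP h0) (P.erase d0) Q (fun x hx => hP (Finset.mem_of_mem_erase hx)) hQ
      (hd.mono_left (Finset.erase_subset _ _)) (Finset.notMem_erase _ _)
      (Finset.disjoint_left.1 hd h0) (fun d hx => hm d ?_) ?_
    · rcases Finset.mem_union.1 hx with hx | hx
      · exact Finset.mem_union_left _ (Finset.mem_of_mem_erase hx)
      · exact Finset.mem_union_right _ hx
    · rw [← he, ← Finset.add_sum_erase P v h0]
      exact (add_sub_cancel_right _ _).symm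
  rw [← Finset.union_eq_empty]
  by_contra hne
  obtain ⟨d0, h0, hm⟩ :=
    Finset.exists_max_image (P ∪ Q) sz (Finset.nonempty_iff_ne_empty.2 hne)
  rcases Finset.mem_union.1 h0 with h1 | h1
  · exact key P Q hP hQ hd he d0 h1 hm
  · exact key Q P hQ hP hd.symm he.symm d0 h1 fun d hx => hm d (by rwa [Finset.union_comm])

theorem geo (f : ℤ → ℝ) (S : Set ℤ) (hf : ∀ d, 0 < f d)
    (h : ∀ d ∈ S, ∀ d' ∈ S, d ≠ d' → 3 * f d ≤ f d' ∨ 3 * f d' ≤ f d) (T : Finset ℤ) :
    (T : Set ℤ) ⊆ S → ∀ M : ℝ, 0 ≤ M → (∀ d ∈ T, f d ≤ M) → 2 * ∑ d ∈ T, f d ≤ 3 * M := by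
  induction T using Finset.induction_on_max_value f with
  | empty =>
    intro _ M hM _
    rw [Finset.sum_empty]
    linarith
  | insert a s ha hs ih =>
    intro hT M hM hb
    have hsS : (s : Set ℤ) ⊆ S := fun x hx => hT (Finset.mem_insert_of_mem hx)
    have haS : a ∈ S := hT (Finset.mem_insert_self a s)
    have h1 := ih hsS (f a / 3) (by have := hf a; positivity) fun d hd => by
      rcases h d (hsS hd) a haS (fun e => ha (e ▸ hd)) with h2 | h2
      · linarith
      · linarith [hs d hd, hf a]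
    rw [Finset.sum_insert ha]
    linarith [hb a (Finset.mem_insert_self a s)]

end Val

theorem xVal : ValS := by
  intro F _ O c S hinj
  refine Val.sep_of (fun d => (c d : F)) S (fun d => O.valuation (c d : F)) ?_
  intro d0 h0 P Q hP hQ hd hP0 hQ0 hm he
  have hne : O.valuation (c d0 : F) ≠ 0 := (Valuation.ne_zero_iff _).2 (c d0).ne_zero
  have hlt : ∀ T : Finset ℤ, (T : Set ℤ) ⊆ S → d0 ∉ T → T ⊆ P ∪ Q →
      O.valuation (∑ d ∈ T, (c d : F)) < O.valuation (c d0 : F) := by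
    intro T hT hT0 hs
    refine Valuation.map_sum_lt _ hne fun d hx => lt_of_le_of_ne (hm d (hs hx)) fun e => ?_
    exact hT0 (hinj d (hT hx) d0 h0 e ▸ hx)
  have h1 := lt_of_le_of_lt (O.valuation.map_sub _ _)
    (max_lt (hlt Q hQ hQ0 Finset.subset_union_right) (hlt P hP hP0 Finset.subset_union_left))
  rw [← he] at h1
  exact lt_irrefl _ h1

theorem xDom : DomS := by
  intro u S hu hr
  refine Val.sep_of u S (fun d => ‖u d‖) ?_
  intro d0 h0 P Q hP hQ hd hP0 hQ0 hm he
  have hpos : ∀ d, 0 < ‖u d‖ := fun d => norm_pos_iff.2 (hu d)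
  have hS : ((P ∪ Q : Finset ℤ) : Set ℤ) ⊆ S := by
    rw [Finset.coe_union]
    exact Set.union_subset hP hQ
  have h1 := Val.geo (fun d => ‖u d‖) S hpos hr (P ∪ Q) hS (‖u d0‖ / 3) (by positivity)
    fun d hx => by
      have hne : d ≠ d0 := fun e => by
        rcases Finset.mem_union.1 hx with hx | hx
        · exact hP0 (e ▸ hx)
        · exact hQ0 (e ▸ hx)
      rcases hr d (hS hx) d0 h0 hne with h2 | h2
      · linarith
      · linarith [hm d hx, hpos d0]
  rw [Finset.sum_union hd] at h1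
  have h2 : ‖u d0‖ ≤ ∑ d ∈ Q, ‖u d‖ + ∑ d ∈ P, ‖u d‖ := by
    rw [he]
    exact (norm_sub_le _ _).trans (add_le_add (norm_sum_le _ _) (norm_sum_le _ _))
  linarith [hpos d0]

end Pool.Agent.MP_154433_an.T5A

end PkVal

section PkDual

set_option autoImplicit false
set_option linter.unusedVariables false

namespace Pool.Agent.MP_154433_an.T5A

namespace Dual

/-- the forms that kill a pure subgroup cut it out -/
theorem mem_of_forms {A : Type} [AddCommGroup A] [Module.Finite ℤ A] (N : AddSubgroup A)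
    (hN : ∀ (n : ℕ) (a : A), n ≠ 0 → n • a ∈ N → a ∈ N) (a : A)
    (h : ∀ f : A →ₗ[ℤ] ℤ, (∀ b ∈ N, f b = 0) → f a = 0) : a ∈ N := by
  let W : Submodule ℤ A := AddSubgroup.toIntSubmodule N
  have hW : ∀ b, b ∈ W ↔ b ∈ N := fun b => Iff.rfl
  have htf : Module.IsTorsionFree ℤ (A ⧸ W) := by
    refine Module.IsTorsionFree.of_smul_eq_zero fun r m hm => ?_
    obtain ⟨b, rfl⟩ := Submodule.Quotient.mk_surjective W m
    by_cases hr : r = 0
    · exact Or.inl hr
    · right
      rw [← Submodule.Quotient.mk_smul, Submodule.Quotient.mk_eq_zero, hW] at hm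
      rw [Submodule.Quotient.mk_eq_zero, hW]
      refine hN r.natAbs b (Int.natAbs_ne_zero.2 hr) ?_
      rcases Int.natAbs_eq r with h1 | h1
      · rw [h1, natCast_zsmul] at hm
        exact hm
      · rw [h1, neg_smul, natCast_zsmul] at hm
        exact N.neg_mem_iff.1 hm
  have hfree : Module.Free ℤ (A ⧸ W) := Module.free_of_finite_type_torsion_free'
  rw [← hW, ← Submodule.Quotient.mk_eq_zero W, ← Module.forall_dual_apply_eq_zero_iff ℤ]
  intro φ
  refine h (φ.comp W.mkQ) fun b hb => ?_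
  rw [LinearMap.comp_apply, Submodule.mkQ_apply, (Submodule.Quotient.mk_eq_zero W).2 ((hW b).2 hb),
    map_zero]

end Dual

theorem xDual : DualS := by
  intro A ι _ _ N c hp hb
  classical
  let S : Set (A →ₗ[ℤ] ℤ) := {f | ∃ i, ∀ a ∈ N i, f a = 0}
  have hfg : (Submodule.span ℤ S).FG := IsNoetherian.noetherian _
  obtain ⟨Lam, hsub, hspan⟩ := (Submodule.fg_span_iff_fg_span_finset_subset S).1 hfg
  let g : ℤ → (Lam → ℤ) := fun d f => f.1 (c d)
  have hfin : (Set.range g).Finite := by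
    have h1 : ∀ f : Lam, ∃ C : ℤ, ∀ d, |f.1 (c d)| ≤ C := by
      intro f
      obtain ⟨i, hi⟩ := hsub f.2
      exact hb i f.1.toAddMonoidHom hi
    choose C hC using h1
    refine (Set.Finite.pi' (fun f : Lam => Set.finite_Icc (-C f) (C f))).subset ?_
    rintro _ ⟨d, rfl⟩ f
    exact abs_le.1 (hC f d)
  refine ⟨Function.invFun g '' Set.range g, hfin.image _, fun d => ?_⟩
  refine ⟨Function.invFun g (g d), ⟨g d, ⟨d, rfl⟩, rfl⟩, fun i => ?_⟩
  have he : g (Function.invFun g (g d)) = g d := Function.invFun_eq ⟨d, rfl⟩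
  refine Dual.mem_of_forms (N i) (hp i) _ fun f hf => ?_
  have hf' : f ∈ Submodule.span ℤ (Lam : Set (A →ₗ[ℤ] ℤ)) := by
    rw [← hspan]
    exact Submodule.subset_span ⟨i, hf⟩
  clear hf
  induction hf' using Submodule.span_induction with
  | mem x hx =>
    have := congrFun he ⟨x, hx⟩
    rw [map_sub, sub_eq_zero]
    exact this.symm
  | zero => rfl
  | add x y _ _ hx hy => rw [LinearMap.add_apply, hx, hy, add_zero]
  | smul r x _ hx => rw [LinearMap.smul_apply, hx, smul_zero]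

end Pool.Agent.MP_154433_an.T5A

end PkDual

section PkNon

/-! The finite places. -/

set_option autoImplicit false

open Set

namespace Pool.Agent.MP_154433_an.T5A

namespace Non

/-- an escaping sequence that depends only on the valuation gives finitely many classes -/
theorem col (hV : ValS) {F : Type} [Field F] (O : ValuationSubring F) (c : ℤ → Fˣ) (ψ : ℤ → ℝ)
    (h : ∀ d d', O.valuation (c d : F) = O.valuation (c d' : F) → ψ d = ψ d') (e : Esc ψ) :
    Col fun d => (c d : F) := by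
  obtain ⟨L, L0, hL⟩ := e 1
  have : NeZero L := ⟨L0.ne'⟩
  refine ⟨ZMod L, inferInstance, fun d => (d : ZMod L), fun j => hV F O c _ fun d hd d' hd' v => ?_⟩
  have e : (d : ZMod L) = (d' : ZMod L) := (show _ = j from hd).trans (show _ = j from hd').symm
  have q := h d d' v
  have a := (ZMod.intCast_eq_intCast_iff_dvd_sub d d' L).1 e
  have b := (ZMod.intCast_eq_intCast_iff_dvd_sub d' d L).1 e.symm
  rcases lt_trichotomy d d' with l | l | l
  · have := hL d d' (by have := Int.le_of_dvd (by omega) a; omega)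
    linarith
  · exact l
  · have := hL d' d (by have := Int.le_of_dvd (by omega) b; omega)
    linarith

theorem int {F : Type} [Field F] {u : F} (h : ∀ O : ValuationSubring F, u ∈ O) : IsIntegral ℤ u := by
  have a : u ∈ (integralClosure (Subring.closure (∅ : Set F)) F).toSubring := by
    rw [← iInf_valuationSubring_superset]
    exact Subring.mem_iInf.2 fun V => h V.1
  have : Algebra.IsIntegral ℤ (Subring.closure (∅ : Set F)) := ⟨fun x => by
    obtain ⟨n, hn⟩ := Subring.mem_bot.1 ((Subring.closure_empty (R := F)).le x.2)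
    rw [show x = algebraMap ℤ _ n from Subtype.ext (by simpa using hn.symm)]
    exact isIntegral_algebraMap⟩
  exact isIntegral_trans (A := Subring.closure (∅ : Set F)) u a

end Non

theorem xNon : NonS := by
  rintro hQ hV hD F _ c ⟨D, fD, hc⟩
  refine or_iff_not_imp_left.2 fun nc => ?_
  obtain ⟨H1, fg, m1, m2⟩ : ∃ H1 : Subgroup Fˣ, H1.FG ∧ (∀ d, c d ∈ H1) ∧ D ⊆ H1 :=
    ⟨_, (Subgroup.fg_iff _).2 ⟨_, rfl, fD.union (toFinite _)⟩, T3A.FinAux.quasi_gen c D hc,
      fun _ h => Subgroup.subset_closure (Or.inl h)⟩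
  have : Group.FG H1 := (Group.fg_iff_subgroup_fg H1).2 fg
  have : Module.Finite ℤ (Additive H1) := Module.Finite.iff_addGroup_fg.2 inferInstance
  let N : ValuationSubring F → AddSubgroup (Additive H1) := fun O =>
    (O.unitGroup.comap H1.subtype).toAddSubgroup
  have mN : ∀ O (a : Additive H1), a ∈ N O ↔ O.valuation ((a.toMul : Fˣ) : F) = 1 := fun O a =>
    O.mem_unitGroup_iff _
  let c' : ℤ → Additive H1 := fun d => Additive.ofMul ⟨c d, m1 d⟩
  obtain ⟨T, fT, hT⟩ := hD (Additive H1) (ValuationSubring F) N c' (fun O n a n0 h => by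
      rw [mN] at h ⊢
      have : O.valuation ((a.toMul : Fˣ) : F) ^ n = 1 := by simpa using h
      exact (pow_eq_one_iff_of_nonneg zero_le n0).1 this) fun O f hf => by
    have fin : {a : Additive H1 | (a.toMul : Fˣ) ∈ D}.Finite :=
      fD.preimage fun a _ b _ e => Subtype.ext e
    obtain ⟨B, hB⟩ := (fin.image fun a => |(f a : ℝ)|).bddAbove
    have eq : ∀ d d', O.valuation (c d : F) = O.valuation (c d' : F) →
        (f (c' d) : ℝ) = f (c' d') := fun d d' v => by
      have : f (c' d - c' d') = 0 := hf _ ((mN _ _).2 (by simp [c', v]))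
      rw [map_sub, sub_eq_zero] at this
      rw [this]
    rcases hQ (fun d => (f (c' d) : ℝ)) B (fun n m => by
      have := hB ⟨c' (n + m) - c' n - c' m, by simpa [c', div_eq_mul_inv] using hc n m, rfl⟩
      simpa using this) with ⟨C, h⟩ | h | h
    · exact ⟨⌈C⌉, fun d => by exact_mod_cast (h d).trans (Int.le_ceil C)⟩
    · exact (nc (Non.col hV O c _ eq h)).elim
    · exact (nc (Non.col hV O c _ (fun d d' v => by rw [eq d d' v]) h)).elim
  let K : Subgroup H1 := (⨅ O : ValuationSubring F, O.unitGroup).comap H1.subtype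
  have fK : K.FG := (Subgroup.fg_iff_add_fg K).2
    ((Submodule.fg_iff_addSubgroup_fg K.toAddSubgroup.toIntSubmodule).1 (IsNoetherian.noetherian _))
  refine ⟨c '' T, K.map H1.subtype, fT.image _, ?_, ?_, fun d => ?_⟩
  · obtain ⟨S, e, fS⟩ := (Subgroup.fg_iff _).1 fK
    exact (Subgroup.fg_iff _).2 ⟨_, by rw [← e, MonoidHom.map_closure], fS.image _⟩
  · rintro _ ⟨u, hu, rfl⟩
    exact Non.int fun O => (O.valuation_le_one_iff _).1
      ((O.mem_unitGroup_iff _).1 (Subgroup.mem_iInf.1 hu O)).le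
  · obtain ⟨e, he, h⟩ := hT d
    refine ⟨c e, mem_image_of_mem c he, (c' d - c' e).toMul, Subgroup.mem_iInf.2 fun O => h O, ?_⟩
    simp [c', div_eq_mul_inv]

end Pool.Agent.MP_154433_an.T5A

end PkNon

section PkUnp

/-! Integral units in positive characteristic, and the lemma on places. -/

set_option autoImplicit false
set_option linter.unusedVariables false

open Set
open scoped Pointwise

namespace Pool.Agent.MP_154433_an.T5A

namespace Unp

lemma finOrd {F : Type} [Field F] (p : ℕ) [CharP F p] (hp : p ≠ 0) (u : Fˣ)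
    (hu : IsIntegral ℤ (u : F)) : IsOfFinOrder u := by
  have : Fact p.Prime := ⟨CharP.char_prime_of_ne_zero F hp⟩
  let _ : Algebra (ZMod p) F := ZMod.algebra F p
  have h1 : IsIntegral (ZMod p) (u : F) := hu.tower_top
  have h2 : Module.Finite (ZMod p) (Algebra.adjoin (ZMod p) {(u : F)}).toSubmodule :=
    Module.Finite.iff_fg.2 h1.fg_adjoin_singleton
  have h3 : Finite (Algebra.adjoin (ZMod p) {(u : F)}).toSubmodule :=
    Module.finite_of_finite (ZMod p)
  have h4 : ((Algebra.adjoin (ZMod p) {(u : F)}).toSubmodule : Set F).Finite := Set.toFinite _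
  refine finite_powers.1 ((h4.preimage Units.val_injective.injOn).subset ?_)
  rintro _ ⟨n, rfl⟩
  have h5 : (u : F) ^ n ∈ Algebra.adjoin (ZMod p) {(u : F)} :=
    pow_mem (Algebra.subset_adjoin (mem_singleton _)) n
  simpa using h5

lemma sep_mul {F : Type} [Field F] {u c : ℤ → F} {S S' : Set ℤ} {f : F} (hf : f ≠ 0)
    (h : Sep u S) (hS : S' ⊆ S) (e : ∀ d ∈ S', c d = u d * f) : Sep c S' := by
  intro P Q hP hQ hd hs
  refine h P Q (hP.trans hS) (hQ.trans hS) hd (mul_right_cancel₀ hf ?_)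
  rw [Finset.sum_mul, Finset.sum_mul, ← Finset.sum_congr rfl fun d hd => e d (hP hd),
    ← Finset.sum_congr rfl fun d hd => e d (hQ hd), hs]

end Unp

theorem xUnp : UnpS := by
  intro F _ p _ hp H hH hi
  have := (Group.fg_iff_subgroup_fg H).2 hH
  have h : Finite H := CommGroup.finite_of_fg_isMulTorsion (G := H) fun g => by
    obtain ⟨n, hn, e⟩ := isOfFinOrder_iff_pow_eq_one.1 (Unp.finOrd p hp g.1 (hi _ g.2))
    exact isOfFinOrder_iff_pow_eq_one.2 ⟨n, hn, Subtype.ext (by simpa using e)⟩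
  exact Set.toFinite _

theorem xPlace : PlaceS := by
  intro hN hP hZ F _ c hc
  rcases hN F c hc with h | ⟨T, H, hT, hH, hi, hm⟩
  · exact Or.inr h
  choose f hf hu using hm
  have e : ∀ d, c d = c d * (f d)⁻¹ * f d := fun d => by simp
  have key : ∀ W : Set Fˣ, W.Finite → (∀ d, c d * (f d)⁻¹ ∈ W) → (range c).Finite :=
    fun W hW h => (hW.mul hT).subset (by
      rintro _ ⟨d, rfl⟩
      rw [e d]
      exact Set.mul_mem_mul (h d) (hf d))
  by_cases hp : ringChar F = 0
  · have : CharP F 0 := hp ▸ ringChar.charP F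
    have : CharZero F := CharP.charP_to_charZero F
    have hq : QH fun d => c d * (f d)⁻¹ := by
      obtain ⟨D, hD, h⟩ := hc
      refine ⟨D * T⁻¹ * T * T, ((hD.mul hT.inv).mul hT).mul hT, fun n m => ?_⟩
      have e2 : c (n + m) * (f (n + m))⁻¹ * (c n * (f n)⁻¹)⁻¹ * (c m * (f m)⁻¹)⁻¹ =
          c (n + m) * (c n)⁻¹ * (c m)⁻¹ * (f (n + m))⁻¹ * f n * f m := by
        simp only [mul_inv, inv_inv]
        ac_rfl
      change c (n + m) * (f (n + m))⁻¹ * (c n * (f n)⁻¹)⁻¹ * (c m * (f m)⁻¹)⁻¹ ∈ _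
      rw [e2]
      exact Set.mul_mem_mul (Set.mul_mem_mul (Set.mul_mem_mul (h n m)
        (Set.inv_mem_inv.2 (hf _))) (hf _)) (hf _)
    rcases hZ F H _ hH hi hu hq with h | ⟨ι, hι, col, h⟩
    · exact Or.inl (key _ h fun d => mem_range_self d)
    · have := hT.to_subtype
      refine Or.inr ⟨ι × T, inferInstance, fun d => (col d, ⟨f d, hf d⟩), fun j => ?_⟩
      refine Unp.sep_mul (j.2.1.ne_zero) (h j.1) (fun d hd => congrArg Prod.fst hd) fun d hd => ?_
      have e3 : f d = j.2.1 := congrArg (fun x : ι × T => x.2.1) hd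
      rw [← e3, ← Units.val_mul, ← e d]
  · exact Or.inl (key _ (hP F (ringChar F) hp H hH hi) hu)

end Pool.Agent.MP_154433_an.T5A

end PkUnp

section PkUnz

/-! Integral units in characteristic zero: the infinite places. -/

set_option autoImplicit false

open Set

namespace Pool.Agent.MP_154433_an.T5A

namespace Unz

theorem three_le {a b : ℝ} (ha : 0 < a) (hb : 0 < b) (h : Real.log a + Real.log 3 ≤ Real.log b) :
    3 * a ≤ b := by
  rw [← Real.log_mul ha.ne' (by norm_num), Real.log_le_log_iff (by positivity) hb] at h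
  linarith

/-- escape gives finitely many classes with dominant terms -/
theorem col_esc (hD : DomS) (z : ℤ → ℂ) (hz : ∀ d, z d ≠ 0)
    (h : Esc (fun d => Real.log ‖z d‖) ∨ Esc fun d => -Real.log ‖z d‖) : Col z := by
  have key : ∃ L : ℕ, 0 < L ∧ ∀ d d' : ℤ, d + L ≤ d' →
      3 * ‖z d‖ ≤ ‖z d'‖ ∨ 3 * ‖z d'‖ ≤ ‖z d‖ := by
    rcases h with h | h
    · obtain ⟨L, hL, H⟩ := h (Real.log 3)
      exact ⟨L, hL, fun d d' hd => Or.inl
        (three_le (norm_pos_iff.2 (hz d)) (norm_pos_iff.2 (hz d')) (H d d' hd))⟩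
    · obtain ⟨L, hL, H⟩ := h (Real.log 3)
      exact ⟨L, hL, fun d d' hd => Or.inr
        (three_le (norm_pos_iff.2 (hz d')) (norm_pos_iff.2 (hz d)) (by linarith [H d d' hd]))⟩
  obtain ⟨L, hL, H⟩ := key
  have : NeZero L := ⟨hL.ne'⟩
  refine ⟨ZMod L, inferInstance, fun d => (d : ZMod L), fun j => hD z _ hz fun d hd d' hd' hne => ?_⟩
  have h1 : (d : ZMod L) = (d' : ZMod L) := hd.trans hd'.symm
  have h2 : (L : ℤ) ∣ d' - d := (ZMod.intCast_eq_intCast_iff_dvd_sub d d' L).1 h1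
  rcases lt_or_gt_of_ne hne with hlt | hlt
  · have := Int.le_of_dvd (by omega) h2
    exact H d d' (by omega)
  · have := Int.le_of_dvd (show 0 < -(d' - d) by omega) ((dvd_neg).2 h2)
    exact (H d' d (by omega)).symm

/-- the statement inside a number field -/
theorem nf (hQ : QmS) (hD : DomS) (K : Type) [Field K] [NumberField K] (v : ℤ → K)
    (h0 : ∀ d, v d ≠ 0) (hi : ∀ d, IsIntegral ℤ (v d)) (D : Set K) (hD' : D.Finite)
    (hq : ∀ n m, v (n + m) * (v n)⁻¹ * (v m)⁻¹ ∈ D) : (range v).Finite ∨ Col v := by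
  by_cases hall : ∀ σ : K →+* ℂ, ∃ C : ℝ, ∀ n, |Real.log ‖σ (v n)‖| ≤ C
  · left
    choose C hC using hall
    obtain ⟨B, hB⟩ := (Set.finite_range C).bddAbove
    refine (NumberField.Embeddings.finite_of_norm_le K ℂ (Real.exp B)).subset ?_
    rintro _ ⟨d, rfl⟩
    refine ⟨hi d, fun σ => ?_⟩
    have h1 : 0 < ‖σ (v d)‖ := norm_pos_iff.2 ((map_ne_zero σ).2 (h0 d))
    rw [← Real.exp_log h1]
    exact Real.exp_le_exp.2 (((le_abs_self _).trans (hC σ d)).trans (hB ⟨σ, rfl⟩))
  · right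
    obtain ⟨σ, hσ⟩ := not_forall.1 hall
    have hz : ∀ d, σ (v d) ≠ 0 := fun d => (map_ne_zero σ).2 (h0 d)
    obtain ⟨B, hB⟩ := (hD'.image fun x => |Real.log ‖σ x‖|).bddAbove
    have hd : ∀ n m, |Real.log ‖σ (v (n + m))‖ - Real.log ‖σ (v n)‖ - Real.log ‖σ (v m)‖| ≤ B := by
      intro n m
      have h1 : |Real.log ‖σ (v (n + m) * (v n)⁻¹ * (v m)⁻¹)‖| ≤ B := hB ⟨_, hq n m, rfl⟩
      have p1 := norm_ne_zero_iff.2 (hz (n + m))
      have p2 := norm_ne_zero_iff.2 (hz n)
      have p3 := norm_ne_zero_iff.2 (hz m)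
      rw [map_mul, map_mul, map_inv₀, map_inv₀, norm_mul, norm_mul, norm_inv, norm_inv,
        Real.log_mul (mul_ne_zero p1 (inv_ne_zero p2)) (inv_ne_zero p3),
        Real.log_mul p1 (inv_ne_zero p2), Real.log_inv, Real.log_inv] at h1
      rwa [sub_eq_add_neg, sub_eq_add_neg]
    obtain ⟨ι, hι, col, hc⟩ := col_esc hD (fun d => σ (v d)) hz
      ((hQ (fun d => Real.log ‖σ (v d)‖) B hd).resolve_left hσ)
    refine ⟨ι, hι, col, fun j P Q hP hQ' hPQ e => hc j P Q hP hQ' hPQ ?_⟩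
    rw [← map_sum, ← map_sum, e]

end Unz

theorem xUnz : UnzS := by
  intro hQ hD F _ _ H u hfg hint hu hqh
  obtain ⟨s, hs, hfin⟩ := (Subgroup.fg_iff H).1 hfg
  obtain ⟨K, hK⟩ : ∃ K : IntermediateField ℚ F,
      K = IntermediateField.adjoin ℚ ((fun a : Fˣ => (a : F)) '' s) := ⟨_, rfl⟩
  have hS : Finite ((fun a : Fˣ => (a : F)) '' s) := (hfin.image _).to_subtype
  have hfd : FiniteDimensional ℚ K := by
    rw [hK]
    refine IntermediateField.finiteDimensional_adjoin ?_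
    rintro _ ⟨a, ha, rfl⟩
    exact (hint a (hs ▸ Subgroup.subset_closure ha)).tower_top
  have hnf : NumberField K := { to_charZero := inferInstance, to_finiteDimensional := hfd }
  have hmem : ∀ a ∈ H, (a : F) ∈ K := by
    intro a ha
    rw [← hs] at ha
    induction ha using Subgroup.closure_induction with
    | mem x hx => rw [hK]; exact IntermediateField.subset_adjoin _ _ ⟨x, hx, rfl⟩
    | one => exact K.one_mem
    | mul x y _ _ hx hy => rw [Units.val_mul]; exact K.mul_mem hx hy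
    | inv x _ hx => rw [Units.val_inv_eq_inv_val]; exact K.inv_mem hx
  obtain ⟨D, hDf, hDm⟩ := hqh
  have inj : Function.Injective (fun x : K => (x : F)) := Subtype.val_injective
  have main := Unz.nf hQ hD K (fun d => ⟨(u d : F), hmem _ (hu d)⟩)
    (fun d h => (u d).ne_zero (congrArg Subtype.val h))
    (fun d => (isIntegral_algHom_iff (K.val.toRingHom.toIntAlgHom) inj).1 (hint _ (hu d)))
    ((fun x : K => (x : F)) ⁻¹' ((fun a : Fˣ => (a : F)) '' D))
    ((hDf.image _).preimage inj.injOn)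
    (fun n m => ⟨_, hDm n m, by simp⟩)
  rcases main with h | ⟨ι, hι, col, hc⟩
  · left
    refine Set.Finite.of_finite_image (f := fun a : Fˣ => (a : F))
      ((h.image fun x : K => (x : F)).subset ?_) Units.val_injective.injOn
    rintro _ ⟨_, ⟨d, rfl⟩, rfl⟩
    exact ⟨_, ⟨d, rfl⟩, rfl⟩
  · right
    refine ⟨ι, hι, col, fun j P Q hP hQ' hPQ e => hc j P Q hP hQ' hPQ (inj ?_)⟩
    simpa using e

end Pool.Agent.MP_154433_an.T5A

end PkUnz

section PkMod

/-! Row Mod: the lemma on places for a module over a commutative group. -/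

set_option autoImplicit false

open Set

namespace Pool.Agent.MP_154433_an.T5A

namespace Mod

theorem prim {R M : Type} [CommRing R] [IsNoetherianRing R] [AddCommGroup M] [Module R M]
    (z : M) (hz : z ≠ 0) :
    ∃ (b : R) (P : Ideal R), P.IsPrime ∧ ∀ c, c ∈ P ↔ c • b • z = 0 := by
  have hnt : Nontrivial (Submodule.span R {z}) := by
    refine ⟨⟨⟨z, Submodule.mem_span_singleton_self z⟩, 0, ?_⟩⟩
    intro h
    exact hz (congrArg Subtype.val h)
  obtain ⟨P, hP⟩ := associatedPrimes.nonempty R (Submodule.span R {z})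
  rw [AssociatedPrimes.mem_iff, isAssociatedPrime_iff] at hP
  obtain ⟨hpr, y, hy⟩ := hP
  obtain ⟨b, hb⟩ := Submodule.mem_span_singleton.mp y.2
  refine ⟨b, P, hpr, fun c => ?_⟩
  rw [hy, Submodule.mem_colon_singleton, Submodule.mem_bot, hb]
  exact ⟨fun h => congrArg Subtype.val h, fun h => Subtype.ext h⟩

theorem main (hP : PlaceO) {R M H : Type} [CommRing R] [IsNoetherianRing R] [AddCommGroup M]
    [Module R M] [CommGroup H] (o : H →* R) (z : M) (hz : z ≠ 0) (c : ℤ → H) {Q : Type}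
    (κ : H → Q) (D : Set Q) (hD : D.Finite) (hc : ∀ n m, κ (c (n + m) * (c n)⁻¹ * (c m)⁻¹) ∈ D)
    (hκ : ∀ g h, κ g = κ h → o g • z = o h • z) :
    (∃ b : R, b • z ≠ 0 ∧ (range fun d => o (c d) • b • z).Finite) ∨ Col fun d => o (c d) • z := by
  obtain ⟨b, P, hpr, hmem⟩ := prim (R := R) z hz
  let ψ : R →+* FractionRing (R ⧸ P) :=
    (algebraMap (R ⧸ P) (FractionRing (R ⧸ P))).comp (Ideal.Quotient.mk P)
  have hψ : ∀ r s : R, ψ r = ψ s ↔ r • b • z = s • b • z := fun r s => by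
    simp only [ψ, RingHom.comp_apply]
    rw [(IsFractionRing.injective (R ⧸ P) (FractionRing (R ⧸ P))).eq_iff, Ideal.Quotient.eq, hmem,
      sub_smul, sub_eq_zero]
  let χ : H →* (FractionRing (R ⧸ P))ˣ := (ψ.toMonoidHom.comp o).toHomUnits
  have hχ : ∀ g, (χ g : FractionRing (R ⧸ P)) = ψ (o g) := fun g => rfl
  have key : ∀ g h, χ g = χ h ↔ o g • b • z = o h • b • z := fun g h => by
    rw [← hψ, ← hχ, ← hχ, Units.val_inj]
  have q : QH fun d => χ (c d) := by
    refine ⟨⋃ u ∈ D, {a | ∃ h, κ h = u ∧ χ h = a}, hD.biUnion fun u _ => Set.Subsingleton.finite ?_,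
      fun n m => mem_iUnion₂.2 ⟨_, hc n m, _, rfl, by simp only [map_mul, map_inv]⟩⟩
    rintro _ ⟨g, e1, rfl⟩ _ ⟨h, e2, rfl⟩
    rw [key, smul_comm, hκ g h (e1.trans e2.symm), smul_comm]
  rcases hP _ _ q with h | ⟨ι, hι, col, h⟩
  · refine Or.inl ⟨b, fun e => hpr.ne_top ?_, (h.biUnion
      (t := fun u => {a | ∃ g, χ g = u ∧ o g • b • z = a})
      fun u _ => Set.Subsingleton.finite ?_).subset ?_⟩
    · rw [Ideal.eq_top_iff_one, hmem, e, smul_zero]
    · rintro _ ⟨g, e1, rfl⟩ _ ⟨g', e2, rfl⟩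
      exact (key g g').1 (e1.trans e2.symm)
    · rintro _ ⟨d, rfl⟩
      exact mem_iUnion₂.2 ⟨_, ⟨d, rfl⟩, _, rfl, rfl⟩
  · refine Or.inr ⟨ι, hι, col, fun j A B hA hB hAB e => h j A B hA hB hAB ?_⟩
    simp only [hχ, ← map_sum]
    rw [← Finset.sum_smul, ← Finset.sum_smul] at e
    rw [hψ, smul_comm, e, smul_comm]

end Mod

theorem xMod : ModS := by
  intro hP Ga G _ _ _ S K ct z hS hct hQ hz hK
  classical
  set H := Subgroup.closure S with hH
  have : Group.FG H := by
    rw [Group.fg_iff_subgroup_fg, Subgroup.fg_iff]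
    exact ⟨S, rfl, hS⟩
  have : Monoid.FG H := Group.fg_iff_monoid_fg.mp inferInstance
  have : IsNoetherianRing (MonoidAlgebra ℤ H) :=
    Algebra.FiniteType.isNoetherianRing ℤ (MonoidAlgebra ℤ H)
  let rho : H →* Module.End ℤ Ga := (DistribMulAction.toModuleEnd ℤ Ga).comp H.subtype
  let phi : MonoidAlgebra ℤ H →ₐ[ℤ] Module.End ℤ Ga := MonoidAlgebra.lift ℤ (Module.End ℤ Ga) H rho
  let : Module (MonoidAlgebra ℤ H) Ga := Module.compHom Ga phi.toRingHom
  have hsm : ∀ (b : MonoidAlgebra ℤ H) (a : Ga), b • a = phi b a := fun _ _ => rfl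
  have hof : ∀ (h : H) (a : Ga), (MonoidAlgebra.of ℤ H h) • a = (h : G) • a := by
    intro h a
    rw [hsm]
    simp [phi, rho]
  have hcomm : ∀ (g : G) (b : MonoidAlgebra ℤ H) (a : Ga), g • b • a = b • g • a := by
    intro g b a
    induction b using MonoidAlgebra.induction_on with
    | of h => rw [hof, hof, smul_smul, smul_smul, mul_comm]
    | add f f' hf hf' => rw [add_smul, add_smul, smul_add, hf, hf']
    | smul n f hf =>
      rw [hsm, hsm, map_smul, LinearMap.smul_apply, LinearMap.smul_apply, ← hsm, ← hsm, ← hf]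
      exact (DistribSMul.toAddMonoidHom Ga g).map_zsmul n _
  obtain ⟨D, hD, hc⟩ := hQ
  have := Mod.main hP (MonoidAlgebra.of ℤ H) z hz (fun d => (⟨ct d, hct d⟩ : H))
    (fun h => (QuotientGroup.mk (h : G) : G ⧸ K)) D hD (fun n m => hc n m) fun g h e => by
      rw [hof, hof]
      have := hK _ (QuotientGroup.eq.1 e)
      rw [mul_smul, inv_smul_eq_iff] at this
      exact this.symm
  simp only [hof] at this
  rcases this with ⟨b, hb, h⟩ | h
  · exact Or.inl ⟨b • z, hb, fun g hg => by rw [hcomm, hK g hg], h⟩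
  · exact Or.inr h

end Pool.Agent.MP_154433_an.T5A

end PkMod

section PkDrift

/-! A tight cocycle with values in a commutative group follows a fixed sequence. -/

set_option autoImplicit false

open MeasureTheory Filter Topology
open scoped ENNReal

namespace Pool.Agent.MP_154433_an.T5A

namespace Drift

/-- the elements that fix `E` -/
def stab (G : Type*) {Ga : Type*} [Group G] [MulAction G Ga] (E : Set Ga) : Subgroup G where
  carrier := {g | ∀ a ∈ E, g • a = a}
  one_mem' := fun a _ => one_smul G a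
  mul_mem' := fun {g h} hg hh a ha => by rw [mul_smul, hh a ha, hg a ha]
  inv_mem' := fun {g} hg a ha => by rw [inv_smul_eq_iff, hg a ha]

end Drift

open Drift T3A.FinAux in
theorem xDrift : DriftS := by
  classical
  intro Om Ga G _ ka _ _ _ _ _ T hT P hco ht x hx η hη h3
  obtain ⟨E, hEf, hxE⟩ := nm_tight hx hη
  obtain ⟨A, hA, hA1⟩ := tight_set (ka := ka.prod ka) (fun (g : G) (a : Ga) => g • a)
    (fun n p => (P n p.2)⁻¹ * P n p.1) ht E hEf η hη
  set K := stab G E with hKd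
  let pi : G →* G ⧸ K := QuotientGroup.mk' K
  have hout : ∀ q : G ⧸ K, pi q.out = q := fun q => QuotientGroup.out_eq' q
  let Fx : Ga → Prop := fun a => ∀ g ∈ K, g • a = a
  have hFE : ∀ a ∈ E, Fx a := fun a ha g hg => hg a ha
  have hFs : ∀ (g : G) a, Fx a → Fx (g • a) := fun g a ha k hk => by
    rw [smul_smul, mul_comm, mul_smul, ha k hk]
  have hpi : ∀ (g g' : G) a, Fx a → pi g = pi g' → g • a = g' • a := by
    intro g g' a ha h
    have h1 : g⁻¹ * g' ∈ K := QuotientGroup.eq.mp h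
    have h2 := ha _ h1
    rw [mul_smul, inv_smul_eq_iff] at h2
    exact h2.symm
  let F : Set (G ⧸ K) := {q | ∀ a ∈ E, q.out • a ∈ A}
  have hF : F.Finite := by
    have := hEf.to_subtype
    refine Set.Finite.of_finite_image (f := fun (q : G ⧸ K) (a : E) => q.out • (a : Ga)) ?_ ?_
    · refine (Set.Finite.pi' (fun _ : E => hA)).subset ?_
      rintro _ ⟨q, hq, rfl⟩ a
      exact hq a a.2
    · intro q _ q' _ h
      rw [← hout q, ← hout q']
      refine QuotientGroup.eq.mpr fun a ha => ?_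
      have h1 : q.out • a = q'.out • a := congrFun h ⟨a, ha⟩
      rw [mul_smul, inv_smul_eq_iff, h1]
  obtain ⟨c, F', hF', hc, hq⟩ := drift (ka := ka) T hT (fun n y => pi (P n y))
    (fun n m => (hco n m).mono fun y hy => by rw [hy, map_mul]) F hF h3 (fun n => by
      refine le_trans (measure_mono ?_) (hA1 n)
      intro p hp hp'
      refine hp fun a ha => ?_
      rw [hpi _ ((P n p.2)⁻¹ * P n p.1) a (hFE a ha) (by rw [hout, map_mul, map_inv])]
      exact hp' a ha)
  let S : Set G := Quotient.out '' (F' ∪ {c 0, c 1})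
  have hS : S.Finite := (hF'.union (Set.toFinite _)).image _
  have hlift : ∀ n, ∃ g ∈ Subgroup.closure S, pi g = c n := by
    intro n
    have h1 := quasi_gen c F' hq n
    have h2 : pi '' S = F' ∪ {c 0, c 1} := by
      simp only [S, Set.image_image, hout, Set.image_id']
    rw [← h2, ← MonoidHom.map_closure] at h1
    exact Subgroup.mem_map.mp h1
  choose ct hct hpc using hlift
  have key : ∀ d y (z : Ga), Fx z →
      P d y • z = ((c d)⁻¹ * pi (P d y)).out • ct d • z := by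
    intro d y z hz
    rw [smul_smul]
    refine hpi _ _ z hz ?_
    rw [map_mul, hout, hpc, mul_comm, mul_inv_cancel_left]
  refine ⟨S, K, ct, Set.image2 (fun (q : G ⧸ K) a => q.out • a) F E, Quotient.out '' F, hS, hct,
    ⟨F', hF', fun n m => ?_⟩, Set.Finite.image2 _ hF hEf, ?_, hF.image _, fun d => ?_, fun d => ?_⟩
  · have h := hq n m
    rw [← hpc, ← hpc, ← hpc] at h
    exact h
  · rintro _ ⟨q, _, a, ha, rfl⟩
    exact hFs _ _ (hFE a ha)
  · have h1 : ka {y | x (T d y) ∉ E} ≤ η :=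
      le_trans ((hT d).measure_preimage_le {y | x y ∉ E}) hxE
    refine le_trans (measure_mono ?_) ((measure_union_le _ _).trans (add_le_add h1 (hc d)))
    intro y hy
    by_contra hb
    simp only [Set.mem_union, Set.mem_ofPred_eq, not_or, not_not] at hb
    refine hy ⟨_, Set.mem_image2_of_mem hb.2 hb.1, ?_⟩
    rw [key d y _ (hFE _ hb.1), smul_comm]
  · refine le_trans (measure_mono ?_) (hc d)
    intro y hy hb
    exact hy ⟨_, Set.mem_image_of_mem _ hb, fun z hz => key d y z hz⟩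

end Pool.Agent.MP_154433_an.T5A

end PkDrift

section PkMark

/-! Row Mark: covering by the classes of finitely many fixed families. -/

set_option autoImplicit false

open MeasureTheory Filter Topology Set
open scoped ENNReal

namespace Pool.Agent.MP_154433_an.T5A

noncomputable section

namespace Mark

/-- a class on which the family agrees with a separated family is dissociated -/
theorem dis_of_sep {A : Type} [AddCommGroup A] {u v : ℤ → A} {T : Set ℤ} (hT : Sep u T)
    {S : Finset ℤ} (hS : ∀ d ∈ S, v d = u d ∧ d ∈ T) : Dis (fun a => a = 0) v S := by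
  intro P hP Q hQ hd hne h0
  have hP' := Finset.mem_powerset.1 hP
  have hQ' := Finset.mem_powerset.1 hQ
  have h1 : ∑ d ∈ P, v d = ∑ d ∈ P, u d := Finset.sum_congr rfl fun d hd => (hS d (hP' hd)).1
  have h2 : ∑ d ∈ Q, v d = ∑ d ∈ Q, u d := Finset.sum_congr rfl fun d hd => (hS d (hQ' hd)).1
  have h3 : ∑ d ∈ P, u d = ∑ d ∈ Q, u d := by
    rw [← h1, ← h2]; exact sub_eq_zero.1 h0
  obtain ⟨rfl, rfl⟩ := hT P Q (fun d hd => (hS d (hP' hd)).2) (fun d hd => (hS d (hQ' hd)).2) hd h3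
  simp at hne

/-- the inequality of Markov for a weighted family of small sets -/
theorem markov {Om : Type} [MeasurableSpace Om] (ka : Measure Om) (B : ℤ → Set Om) (η : ℝ≥0∞)
    (hB : ∀ d, ka (B d) ≤ η) (ε : ℝ) (sp : Finset ℤ) (w : ℤ → ℝ) (hw : Pw sp w) (E : Set Om)
    (hE : ∀ y ∈ E, ∃ R : Finset ℤ, R ⊆ sp ∧ (∀ d ∈ R, y ∈ B d) ∧ ε ≤ ∑ d ∈ R, w d) :
    ENNReal.ofReal ε * ka E ≤ η := by
  classical
  let f : Om → ℝ≥0∞ := fun y =>
    ∑ d ∈ sp, (toMeasurable ka (B d)).indicator (fun _ => ENNReal.ofReal (w d)) y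
  have hm : ∀ d, Measurable fun y =>
      (toMeasurable ka (B d)).indicator (fun _ => ENNReal.ofReal (w d)) y := fun d =>
    measurable_const.indicator (measurableSet_toMeasurable ka (B d))
  have hf : Measurable f := Finset.measurable_sum _ fun d _ => hm d
  have hsub : E ⊆ {y | ENNReal.ofReal ε ≤ f y} := by
    intro y hy
    obtain ⟨R, hR, hy', hε⟩ := hE y hy
    show ENNReal.ofReal ε ≤ f y
    calc ENNReal.ofReal ε ≤ ENNReal.ofReal (∑ d ∈ R, w d) := ENNReal.ofReal_le_ofReal hε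
      _ = ∑ d ∈ R, ENNReal.ofReal (w d) := ENNReal.ofReal_sum_of_nonneg fun d _ => hw.1 d
      _ = ∑ d ∈ R, (toMeasurable ka (B d)).indicator (fun _ => ENNReal.ofReal (w d)) y :=
          Finset.sum_congr rfl fun d hd =>
            (indicator_of_mem (subset_toMeasurable ka (B d) (hy' d hd))
              fun _ => ENNReal.ofReal (w d)).symm
      _ ≤ f y := Finset.sum_le_sum_of_subset hR
  calc ENNReal.ofReal ε * ka E ≤ ENNReal.ofReal ε * ka {y | ENNReal.ofReal ε ≤ f y} := by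
        gcongr
    _ ≤ ∫⁻ y, f y ∂ka := mul_meas_ge_le_lintegral hf _
    _ = ∑ d ∈ sp, ENNReal.ofReal (w d) * ka (B d) := by
        rw [lintegral_finsetSum _ fun d _ => hm d]
        refine Finset.sum_congr rfl fun d _ => ?_
        rw [lintegral_indicator_const (measurableSet_toMeasurable ka (B d)), measure_toMeasurable]
    _ ≤ ∑ d ∈ sp, ENNReal.ofReal (w d) * η := Finset.sum_le_sum fun d _ => by
        gcongr; exact hB d
    _ = η := by
        rw [← Finset.sum_mul, ← ENNReal.ofReal_sum_of_nonneg fun d _ => hw.1 d, hw.2,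
          ENNReal.ofReal_one, one_mul]

end Mark

theorem xMark : MarkS := by
  classical
  intro Om Ga _ ka _ γ Z e η hZ he0 hcol hB
  choose ι hι col hsep using fun z : {z : Ga // z ∈ Z ∧ z ≠ 0} => hcol z.1 z.2.1 z.2.2
  have : Finite {z : Ga // z ∈ Z ∧ z ≠ 0} := (hZ.subset fun z hz => hz.1).to_subtype
  have : ∀ z, Finite (ι z) := hι
  let φ := Finite.equivFin (Σ z : {z : Ga // z ∈ Z ∧ z ≠ 0}, ι z)
  refine ⟨Nat.card (Σ z : {z : Ga // z ∈ Z ∧ z ≠ 0}, ι z), fun ε sp w hw => ?_⟩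
  refine Mark.markov ka (fun d => {y | ¬ ∃ z ∈ Z, γ d y = e d z}) η hB ε sp w hw _ fun y hy => ?_
  let S : Fin (Nat.card (Σ z : {z : Ga // z ∈ Z ∧ z ≠ 0}, ι z)) → Finset ℤ := fun i =>
    sp.filter fun d => γ d y = e d (φ.symm i).1.1 ∧ col (φ.symm i).1 d = (φ.symm i).2
  have hS : ∀ i, Dis (fun a => a = 0) (fun d => γ d y) (S i) := fun i =>
    Mark.dis_of_sep (hsep (φ.symm i).1 (φ.symm i).2) fun d hd => (Finset.mem_filter.1 hd).2
  have hy' : ¬ Cov (fun a => a = 0) (fun d => γ d y) sp w _ ε := hy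
  refine ⟨sp.filter fun d => ¬ γ d y = 0 ∧ ∀ i, d ∉ S i, Finset.filter_subset _ _, ?_, ?_⟩
  · intro d hd
    obtain ⟨hd1, hd2, hd3⟩ := Finset.mem_filter.1 hd
    rintro ⟨z, hz, hz'⟩
    have hz0 : z ≠ 0 := by
      rintro rfl
      exact hd2 (hz'.trans (he0 d))
    refine hd3 (φ ⟨⟨z, hz, hz0⟩, col ⟨z, hz, hz0⟩ d⟩) (Finset.mem_filter.2 ⟨hd1, ?_⟩)
    rw [φ.symm_apply_apply]
    exact ⟨hz', rfl⟩
  · by_contra hlt
    refine hy' ⟨S, hS, ?_⟩
    convert (not_le.1 hlt).le

end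

end Pool.Agent.MP_154433_an.T5A

end PkMark

section PkCore

/-! Row Core: a tight decaying cocycle with values in a commutative group is covered. -/

set_option autoImplicit false
set_option linter.unusedVariables false

open MeasureTheory Filter Topology Set
open scoped ENNReal

namespace Pool.Agent.MP_154433_an.T5A

theorem xCore : CoreS := by
  intro hMod hDrift hMark Om Ga G _ ka _ _ _ _ _ T hT P hP htight x hx k hk ε δ hε hδ
  have hc : min 1 (ENNReal.ofReal ε * δ) ≠ 0 := by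
    refine (lt_min zero_lt_one ?_).ne'
    exact ENNReal.mul_pos (ENNReal.ofReal_pos.2 hε).ne' hδ.ne'
  obtain ⟨n, hn0, hn⟩ := ENNReal.exists_nnreal_pos_mul_lt (a := 3) (by simp) hc
  have h3 : (n : ℝ≥0∞) + n + n = n * 3 := by ring
  have hη1 : (n : ℝ≥0∞) + n + n < 1 := h3 ▸ hn.trans_le (min_le_left _ _)
  have hη2 : (n : ℝ≥0∞) + n < ENNReal.ofReal ε * δ :=
    lt_of_le_of_lt le_self_add (h3 ▸ hn.trans_le (min_le_right _ _))
  obtain ⟨S, K, ct, Z, F0, hS, hct, hQ, hZ, hZK, hF0, hA, hB⟩ :=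
    hDrift Om Ga G ka T hT P hP htight x hx n (by exact_mod_cast hn0) hη1
  have hcol : ∀ z ∈ Z, z ≠ 0 → Col fun d => ct d • z := by
    intro z hz hz0
    rcases hMod Ga G S K ct z hS hct hQ hz0 (hZK z hz) with ⟨z', hz', hK', hfin⟩ | h
    · exfalso
      have hY : (image2 (fun (f : G) (r : Ga) => f • r) F0 (range fun d => ct d • z')).Finite :=
        hF0.image2 _ hfin
      have hne : ∀ b ∈ hY.toFinset, b ≠ 0 := by
        intro b hb
        obtain ⟨f, -, _, ⟨d, rfl⟩, rfl⟩ := hY.mem_toFinset.1 hb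
        intro h0
        exact hz' ((smul_eq_zero_iff_eq _).1 ((smul_eq_zero_iff_eq _).1 h0))
      have hle : ∀ i, (1 : ℝ≥0∞) ≤
          n + ∑ b ∈ hY.toFinset, ka {y | P (k i) y • z' = b} := by
        intro i
        have hsub : (univ : Set Om) ⊆
            {y | ¬ ∃ f ∈ F0, ∀ z : Ga, (∀ g ∈ K, g • z = z) → P (k i) y • z = f • ct (k i) • z} ∪
              ⋃ b ∈ hY.toFinset, {y | P (k i) y • z' = b} := by
          intro y _
          by_cases hy : ∃ f ∈ F0, ∀ z : Ga, (∀ g ∈ K, g • z = z) →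
              P (k i) y • z = f • ct (k i) • z
          · obtain ⟨f, hf, hf'⟩ := hy
            refine Or.inr (mem_iUnion₂.2 ⟨f • ct (k i) • z', ?_, hf' z' hK'⟩)
            exact hY.mem_toFinset.2 ⟨f, hf, _, ⟨k i, rfl⟩, rfl⟩
          · exact Or.inl hy
        calc (1 : ℝ≥0∞) = ka univ := measure_univ.symm
          _ ≤ _ := measure_mono hsub
          _ ≤ _ := measure_union_le _ _
          _ ≤ _ := add_le_add (hB (k i)) (measure_biUnion_finset_le _ _)
      have ht : Tendsto (fun i => (n : ℝ≥0∞) + ∑ b ∈ hY.toFinset, ka {y | P (k i) y • z' = b})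
          atTop (𝓝 (n + ∑ b ∈ hY.toFinset, 0)) :=
        tendsto_const_nhds.add (tendsto_finsetSum _ fun b hb => hk z' b (hne b hb))
      have h1 := ge_of_tendsto' ht hle
      rw [Finset.sum_const_zero, add_zero] at h1
      exact absurd (lt_of_le_of_lt (h1.trans (le_self_add.trans le_self_add)) hη1) (lt_irrefl _)
    · exact h
  obtain ⟨K0, hK0⟩ := hMark Om Ga ka (fun d y => P d y • x (T d y)) Z (fun d z => ct d • z)
    (n + n) hZ (fun d => smul_zero _) hcol hA
  refine ⟨K0, fun sp w hw => ?_⟩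
  have h1 := (hK0 ε sp w hw).trans_lt hη2
  by_contra h2
  exact absurd h1 (not_lt.2 (by gcongr; exact not_lt.1 h2))

end Pool.Agent.MP_154433_an.T5A

end PkCore
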