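import Pool.Agent.MP_154433_an.t4a.Spec
import Pool.Agent.MP_154433_an.t5.Defs1
import Pool.Agent.MP_154433_an.p4.B3
import Pool.Agent.MP_154433_an.p4.B4
import Pool.Agent.MP_154433_an.p4.B5
import Pool.Agent.MP_154433_an.t3a.ConvA
import Pool.Agent.MP_154433_an.t3a.Lim
import Pool.Agent.MP_154433_an.t3a.Mk
import Pool.Agent.MP_154433_an.p4.Top
import Pool.Agent.MP_154433_an.p4.B1
import Pool.Agent.MP_154433_an.p4.B2
import Pool.Agent.MP_154433_an.p5a.A

section PkSpecB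

/-! The algebraic step for dissociated families: statements of the rows on bundles. -/

set_option autoImplicit false
set_option linter.unusedVariables false

open MeasureTheory ProbabilityTheory Filter Topology Set
open scoped ENNReal

namespace Pool.Agent.MP_154433_an.T4A.T5B

open T3A T5A

noncomputable section

section

variable {Ω V J : Type} [MeasurableSpace Ω] [AddCommGroup V]

/-- the arrows live on `I` in the limit -/
def Lives (B : Bun ℤ Ω V J) (I : Set Ω) : Prop :=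
  B.Nul fun M => {z | (∀ j, ((0 : V), (0 : V)) ∈ B.Sg j M z.1 z.2) ∧ z.2 ∉ I}

/-- the points at which the orbit of `c` is not covered -/
def ncS (A : Base ℤ Ω V) (c : V) (sp : Finset ℤ) (w : ℤ → ℝ) (K : ℕ) (ε : ℝ) : Set Ω :=
  {y | ¬ Cov (fun u => u ∈ A.N y) (fun d => sz A.σ d c) sp w K ε}

/-- many points of `I` are not covered, for every number of classes -/
def RelI (A : Base ℤ Ω V) (I : Set Ω) : Prop :=
  ∃ (c : V) (ε : ℝ) (δ : ℝ≥0∞), 0 < ε ∧ 0 < δ ∧ ∀ K : ℕ, ∃ (sp : Finset ℤ) (w : ℤ → ℝ),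
    Pw sp w ∧ δ ≤ A.μ (ncS A c sp w K ε ∩ I)

def Rel2 (B : Bun ℤ Ω V J) : Prop :=
  ∀ I : Set Ω, MeasurableSet I → (∀ n, tz B.T n ⁻¹' I = I) → Lives B I → RelI B.toBase I

/-- decay along a sequence of shifts -/
def Dec2 (A : Base ℤ Ω V) : Prop :=
  ∃ k : ℕ → ℤ, ∀ c c' : V, Tendsto (fun i => A.μ (A.decS (k i) c c')) atTop (𝓝 0)

end

def NcS : Prop :=
  ∀ (Ω V : Type) [MeasurableSpace Ω] [AddCommGroup V] (A : Base ℤ Ω V) (c : V) (sp : Finset ℤ)
    (w : ℤ → ℝ) (K : ℕ) (ε : ℝ), MeasurableSet (ncS A c sp w K ε)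

/-- the shadow of an invariant set of an extension -/
def ShadS : Prop :=
  ∀ (Y Ω : Type) [MeasurableSpace Y] [MeasurableSpace Ω] (μ' : Measure Y)
    [IsProbabilityMeasure μ'] (μ : Measure Ω) [IsProbabilityMeasure μ] (T' : Act ℤ Y)
    (T : Act ℤ Ω) (p : Y → Ω), MP T' μ' → MP T μ → MeasurePreserving p μ' μ →
    (∀ n y, p (tz T' n y) = tz T n (p y)) → ∀ I' : Set Y, MeasurableSet I' →
    (∀ n, tz T' n ⁻¹' I' = I') → ∃ I : Set Ω, MeasurableSet I ∧ (∀ n, tz T n ⁻¹' I = I) ∧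
      ∀ A : Set Ω, MeasurableSet A →
        μ (A ∩ I) ≤ 2 * μ' (p ⁻¹' A ∩ I') ∧ μ (A \ I) ≤ 2 * μ' (p ⁻¹' A \ I')

def Pul2O : Prop :=
  ∀ (Y Ω V J : Type) [MeasurableSpace Y] [MeasurableSpace Ω] [AddCommGroup V] [Countable V]
    [Fintype J] (B' : Bun ℤ Y V J) (B : Bun ℤ Ω V J) (p : Y → Ω), Ext B' B p →
    (Rel2 B' ↔ Rel2 B) ∧ (Dec2 B'.toBase ↔ Dec2 B.toBase)

def Pul2S : Prop := NcS → ShadS → Pul2O

def Rli2S : Prop :=
  ∀ (Ω V J : Type) [MeasurableSpace Ω] [AddCommGroup V]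
    [Countable V] [Fintype J] (B : Bun ℤ Ω V J) (κ : Kernel Ω Ω) [IsMarkovKernel κ]
    (K : J → Kernel Ω (Ω × Arr V)) [∀ j, IsMarkovKernel (K j)] (K0 : Kernel Ω (Ω × Arr V))
    [IsMarkovKernel K0] (Ip : Set Ω) (Φ : Kernel (Ω × Ω) (Arr V)),
    (∀ j, IsLim B j (wOf B.μ (K j))) → (∀ᵐ y ∂B.μ, (∀ j, y ∈ Sup (K j)) → y ∈ Sup K0) →
    LamP B.toBase κ (wOf B.μ K0) → PhiD B.toBase κ (Lam B.toBase (wOf B.μ K0)) Ip Φ → Lives B Ip

def Tau2O : Prop :=
  ∀ (Ω V : Type) [MeasurableSpace Ω] [AddCommGroup V] [Countable V] (B : Base ℤ Ω V)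
    (κ : Kernel Ω Ω) (L : Measure ((Ω × Ω) × Arr V)) (Ip : Set Ω)
    (Φ : Kernel (Ω × Ω) (Arr V)) (g : ℕ → Ω → Arr V) (Pos : Ω × Ω → V × V → V × V → Prop),
    ErgP B.μ B.T κ → PhiD B κ L Ip Φ → HatD B κ Ip Φ g Pos → RelI B Ip → Dec2 B →
    ∃ (A : Base ℤ Ω V) (N0 : AddSubgroup V) (τ : Ω → Arr V) (G0 : ℕ → Arr V)
      (m2 : Measure ((Ω × Ω) × Arr V)), FixD A N0 τ G0 g m2 ∧ RelI A univ ∧ Dec2 A

def Tau2S : Prop := NcS → T1S → T2S → SelS → SubS → Tau2O

def Psr2S : Prop :=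
  ∀ (Ω V Γ : Type) [MeasurableSpace Ω] [AddCommGroup V] [Countable V] [AddCommGroup Γ]
    [Countable Γ] (A : Base ℤ Ω V) (θ : Ω → V →+ Γ) (Ψ : ℤ → Ω → Au Γ), Th A θ → Coc A θ Ψ →
    (∀ (c : V) (sp : Finset ℤ) (w : ℤ → ℝ) (K : ℕ) (ε : ℝ), A.μ (ncS A c sp w K ε) ≤
      A.μ {y | ¬ Cov (fun a => a = 0) (fun d => Ψ d y (θ (tz A.T d y) c)) sp w K ε}) ∧
    ∀ k : ℕ → ℤ, (∀ c c' : V, Tendsto (fun i => A.μ (A.decS (k i) c c')) atTop (𝓝 0)) →
      ∀ ξ ξ' : Γ, ξ' ≠ 0 → Tendsto (fun i => A.μ {y | Ψ (k i) y ξ = ξ'}) atTop (𝓝 0)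

/-- the last step -/
def Fin2O : Prop :=
  ∀ (Γ : Type) [AddCommGroup Γ] [Countable Γ] (Y : Type) [MeasurableSpace Y] (m : Measure Y)
    [IsProbabilityMeasure m] (T : Act ℤ Y), MP T m →
  ∀ (Ψ : ℤ → Y → Au Γ) (C : Set (Au Γ)), (∀ a ∈ C, ∀ b ∈ C, a * b = b * a) →
    (∀ n, ∀ᵐ y ∂m, Ψ n y ∈ C) → (∀ n k, ∀ᵐ y ∂m, Ψ (n + k) y = Ψ n y * Ψ k (tz T n y)) →
    (∀ ξ : Γ, ∀ ε : ℝ≥0∞, 0 < ε → ∃ F : Finset Γ, ∀ n,
      (m.prod m) {p | (Ψ n p.2)⁻¹ (Ψ n p.1 ξ) ∉ F} ≤ ε) →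
  ∀ (x : Y → Γ), (∀ ξ, MeasurableSet {y | x y = ξ}) →
  ∀ (k : ℕ → ℤ), (∀ ξ ξ' : Γ, ξ' ≠ 0 → Tendsto (fun i => m {y | Ψ (k i) y ξ = ξ'}) atTop (𝓝 0)) →
  ∀ (ε : ℝ) (δ : ℝ≥0∞), 0 < ε → 0 < δ → ∃ K : ℕ, ∀ (sp : Finset ℤ) (w : ℤ → ℝ), Pw sp w →
    m {y | ¬ Cov (fun a => a = 0) (fun d => Ψ d y (x (tz T d y))) sp w K ε} < δ

def Fin2S : Prop := T5A.CoreO → Fin2O

/-- the algebraic step on bundles -/
def AlgO : Prop :=
  ∀ (X V J : Type) [MeasurableSpace X] [AddCommGroup V] [Countable V] [Fintype J] [Nonempty J]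
    (B : Bun ℤ X V J), AddSubgroup.closure (range B.a ∪ range B.b) = ⊤ →
    H0 B → Flat B → Rel2 B → Dec2 B.toBase → False

/-- equivariance for all powers -/
def ShzS : Prop :=
  ∀ (ν : T3x.Wt) (U : Ultrafilter ℕ) (X : T3x.Sys) (V : Type) [AddCommGroup V] (sg : AddAut V)
    (N : V → Set X.X) (Sg : T3x.Lab → V → V → Set X.X) (n : T3x.Lab → ℤ),
    T5x.AlgD1 ν U X sg N Sg n →
    (∀ (k : ℤ) (v : V), ∀ᵐ x ∂X.μ, x ∈ N ((k • sg) v) ↔ X.Tz k x ∈ N v) ∧
    ∀ (k : ℤ) (a a' : V), T3x.Nl ν U X fun l =>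
      {y | ¬ (y ∈ Sg l ((k • sg) a) ((k • sg) a') ↔ X.Tz k y ∈ Sg l a a')}

/-- decay along one sequence of shifts -/
def DekS : Prop :=
  ∀ (ν : T3x.Wt) (U : Ultrafilter ℕ) (X : T3x.Sys) (V : Type) [AddCommGroup V] [Countable V]
    (sg : AddAut V) (N : V → Set X.X),
    (∀ a a', T3x.Nl ν U X fun l => N (((l.2.1 - l.2.2) • sg) a - a') \ N a') →
    ∃ k : ℕ → ℤ, ∀ a a', Tendsto (fun i => X.μ (N ((k i • sg) a - a') \ N a')) atTop (𝓝 0)

end

end Pool.Agent.MP_154433_an.T4A.T5B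

end PkSpecB

section PkShad

/-! Row Shad: the shadow of an invariant set of an extension. -/

set_option autoImplicit false
set_option linter.unusedVariables false

open MeasureTheory ProbabilityTheory Filter Topology Set
open scoped ENNReal

namespace Pool.Agent.MP_154433_an.T4A.T5B

open T3A T5A

noncomputable section

namespace Shad

lemma le_iUnion {Ω : Type} [MeasurableSpace Ω] (μ ν : Measure Ω) (f : ℕ → Set Ω)
    (hf : ∀ k, MeasurableSet (f k))
    (h : ∀ k t, MeasurableSet t → t ⊆ f k → μ t ≤ ν t) (A : Set Ω) (hA : MeasurableSet A) :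
    μ (A ∩ ⋃ k, f k) ≤ ν A := by
  have hD : ∀ k, MeasurableSet (A ∩ disjointed f k) := fun k =>
    hA.inter (MeasurableSet.disjointed hf k)
  have e : (A ∩ ⋃ k, f k) = ⋃ k, A ∩ disjointed f k := by
    rw [← iUnion_disjointed, inter_iUnion]
  calc μ (A ∩ ⋃ k, f k) ≤ ∑' k, μ (A ∩ disjointed f k) := by rw [e]; exact measure_iUnion_le _
    _ ≤ ∑' k, ν (A ∩ disjointed f k) := ENNReal.tsum_le_tsum fun k =>
        h k _ (hD k) (inter_subset_right.trans (disjointed_subset f k))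
    _ = ν (⋃ k, A ∩ disjointed f k) := (measure_iUnion (fun i j hij =>
        ((disjoint_disjointed f) hij).mono inter_subset_right inter_subset_right) hD).symm
    _ ≤ ν A := measure_mono (iUnion_subset fun k => inter_subset_left)

end Shad

theorem xShad : ShadS := by
  intro Y Ω _ _ μ' _ μ _ T' T p hT' hT hp hc I' hI' hinv
  obtain ⟨m, hm⟩ : ∃ m : Measure Ω, m = (μ'.restrict I').map p := ⟨_, rfl⟩
  have : IsFiniteMeasure m := by rw [hm]; infer_instance
  have mt : ∀ t, MeasurableSet t → m t = μ' (p ⁻¹' t ∩ I') := fun t ht => by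
    rw [hm, Measure.map_apply hp.measurable ht, Measure.restrict_apply (hp.measurable ht)]
  have minv : ∀ n t, MeasurableSet t → m (T4A.tz T n ⁻¹' t) = m t := fun n t ht => by
    rw [mt _ ((hT n).measurable ht), mt _ ht,
      ← (hT' n).measure_preimage ((hp.measurable ht).inter hI').nullMeasurableSet,
      preimage_inter, hinv n]
    congr 2
    ext y
    simp only [mem_preimage, hc]
  have : IsFiniteMeasure ((2 : ℝ≥0∞) • m) :=
    ⟨by rw [Measure.smul_apply, smul_eq_mul]; finiteness⟩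
  obtain ⟨s, hs, h1, h2⟩ := hahn_decomposition ((2 : ℝ≥0∞) • m) μ
  simp only [Measure.smul_apply, smul_eq_mul] at h1 h2
  have tadd : ∀ a b y, T4A.tz T (a + b) y = T4A.tz T a (T4A.tz T b y) := T.add
  have tzero : ∀ y, T4A.tz T 0 y = y := T.zero
  have h3 : ∀ (n : ℤ) t, MeasurableSet t → t ⊆ T4A.tz T n ⁻¹' s →
      μ t ≤ ((2 : ℝ≥0∞) • m) t := by
    intro n t ht hts
    rw [Measure.smul_apply, smul_eq_mul, ← minv (-n) t ht,
      ← (hT (-n)).measure_preimage ht.nullMeasurableSet]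
    refine h1 _ ((hT (-n)).measurable ht) fun z hz => ?_
    have := hts hz
    rwa [mem_preimage, ← tadd, add_neg_cancel, tzero] at this
  have hI : MeasurableSet (⋃ n : ℤ, T4A.tz T n ⁻¹' s) :=
    MeasurableSet.iUnion fun n => (hT n).measurable hs
  refine ⟨⋃ n : ℤ, T4A.tz T n ⁻¹' s, hI, fun k => ?_, fun A hA => ⟨?_, ?_⟩⟩
  · ext y
    simp only [mem_preimage, mem_iUnion, ← tadd]
    exact ⟨fun ⟨n, hn⟩ => ⟨_, hn⟩, fun ⟨n, hn⟩ => ⟨n - k, by rwa [sub_add_cancel]⟩⟩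
  · have e : (⋃ n : ℤ, T4A.tz T n ⁻¹' s) =
        ⋃ k : ℕ, T4A.tz T ((Denumerable.eqv ℤ).symm k) ⁻¹' s :=
      ((Denumerable.eqv ℤ).symm.surjective.iUnion_comp fun n => T4A.tz T n ⁻¹' s).symm
    have := Shad.le_iUnion μ ((2 : ℝ≥0∞) • m) _ (fun k => (hT _).measurable hs)
      (fun k => h3 ((Denumerable.eqv ℤ).symm k)) A hA
    rwa [← e, Measure.smul_apply, smul_eq_mul, mt A hA] at this
  · have ht := hA.diff hI
    have hsub : A \ (⋃ n : ℤ, T4A.tz T n ⁻¹' s) ⊆ sᶜ := fun y hy hys =>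
      hy.2 (mem_iUnion.2 ⟨0, by rwa [mem_preimage, tzero]⟩)
    have h4 := h2 _ ht hsub
    have h5 := measure_inter_add_sdiff (μ := μ') (p ⁻¹' (A \ ⋃ n : ℤ, T4A.tz T n ⁻¹' s)) hI'
    rw [hp.measure_preimage ht.nullMeasurableSet] at h5
    rw [mt _ ht, ← h5, two_mul] at h4
    have h6 := (ENNReal.add_le_add_iff_left (measure_ne_top _ _)).1 h4
    rw [← h5, two_mul]
    have h7 : μ' (p ⁻¹' (A \ ⋃ n : ℤ, T4A.tz T n ⁻¹' s) \ I') ≤ μ' (p ⁻¹' A \ I') :=
      measure_mono (sdiff_subset_sdiff_left (preimage_mono sdiff_subset))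
    exact add_le_add (h6.trans h7) h7

end

end Pool.Agent.MP_154433_an.T4A.T5B

end PkShad

section PkPul2

/-! The covering events are measurable and pass to extensions. -/

set_option autoImplicit false

open MeasureTheory ProbabilityTheory Filter Topology Set
open scoped ENNReal

namespace Pool.Agent.MP_154433_an.T4A.T5B

open T3A T5A

theorem xNc : NcS := by
  classical
  intro Ω V _ _ A c sp w K ε
  have hN : ∀ u : V, Measurable fun y => u ∈ A.N y := fun u => measurableSet_setOfPred.1 (A.mN u)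
  refine measurableSet_setOfPred.2 (Measurable.not (Measurable.exists fun S => Measurable.and
    (Measurable.forall fun i => ?_) ?_))
  · exact Measurable.forall fun P => measurable_const.imp (Measurable.forall fun Q =>
      measurable_const.imp (measurable_const.imp (measurable_const.imp (hN _).not)))
  · simp only [Finset.sum_filter]
    refine measurableSet_setOfPred.1 (measurableSet_le (Finset.measurable_sum _ fun d _ => ?_)
      measurable_const)
    exact Measurable.ite (measurableSet_setOfPred.2 ((hN _).not.and measurable_const))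
      measurable_const measurable_const

namespace Pul2

variable {Y Ω V J : Type} [MeasurableSpace Y] [MeasurableSpace Ω] [AddCommGroup V]
  {B' : Bun ℤ Y V J} {B : Bun ℤ Ω V J} {p : Y → Ω}

theorem nc_eq (h : Ext B' B p) (c : V) (sp : Finset ℤ) (w : ℤ → ℝ) (K : ℕ) (ε : ℝ) :
    ncS B'.toBase c sp w K ε = p ⁻¹' ncS B.toBase c sp w K ε := by
  ext y
  simp only [ncS, mem_preimage, mem_ofPred_eq, h.hσ, h.hN]

/-- the points at which all arrows with label `d` are nonempty -/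
def lv (B : Bun ℤ Ω V J) (M : ℕ) (d : ℤ × ℤ) : Set Ω :=
  {y | ∀ j, ((0 : V), (0 : V)) ∈ B.Sg j M d y}

theorem lv_meas [Fintype J] (B : Bun ℤ Ω V J) (M : ℕ) (d : ℤ × ℤ) : MeasurableSet (lv B M d) :=
  measurableSet_setOfPred.2 (Measurable.forall fun j => (measurable_set_mem _).comp (B.mS j M d))

theorem lv_eq (h : Ext B' B p) (M : ℕ) (d : ℤ × ℤ) : lv B' M d = p ⁻¹' lv B M d := by
  ext y
  simp only [lv, mem_preimage, mem_ofPred_eq, h.hS]

theorem P_lv [Fintype J] (B : Bun ℤ Ω V J) (M : ℕ) {I : Set Ω} (hI : MeasurableSet I) :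
    B.P M {z | (∀ j, ((0 : V), (0 : V)) ∈ B.Sg j M z.1 z.2) ∧ z.2 ∉ I} =
      ∫⁻ d, B.μ (lv B M d \ I) ∂((B.ν M).prod (B.ν M)) := by
  have hE : MeasurableSet
      {z : (ℤ × ℤ) × Ω | (∀ j, ((0 : V), (0 : V)) ∈ B.Sg j M z.1 z.2) ∧ z.2 ∉ I} :=
    measurableSet_lab fun d => (lv_meas B M d).diff hI
  rw [Bun.P, PM_apply _ _ hE]
  rfl

end Pul2

open Pul2 in
theorem xPul2 : Pul2S := by
  intro hNc hSh Y Ω V J _ _ _ _ _ B' B p h
  refine ⟨⟨fun H I hI hinv hL => ?_, fun H I' hI' hinv' hL' => ?_⟩, ?_⟩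
  · have hI' : MeasurableSet (p ⁻¹' I) := h.mp.measurable hI
    obtain ⟨c, ε, δ, hε, hδ, hK⟩ := H (p ⁻¹' I) hI' (fun n => by
      ext y
      simp only [mem_preimage, h.comm, mem_tz B.T hinv]) (by
      unfold Lives Bun.Nul at hL ⊢
      rw [h.hU]
      refine hL.congr fun M => ?_
      rw [P_lv B M hI, P_lv B' M hI', h.hν]
      refine lintegral_congr fun d => ?_
      rw [lv_eq h, ← preimage_sdiff,
        h.mp.measure_preimage ((lv_meas B M d).diff hI).nullMeasurableSet])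
    refine ⟨c, ε, δ, hε, hδ, fun K => ?_⟩
    obtain ⟨sp, w, hw, h1⟩ := hK K
    refine ⟨sp, w, hw, ?_⟩
    rwa [nc_eq h, ← preimage_inter, h.mp.measure_preimage
      ((hNc Ω V B.toBase c sp w K ε).inter hI).nullMeasurableSet] at h1
  · obtain ⟨I, hI, hinv, hb⟩ := hSh Y Ω B'.μ B.μ B'.T B.T p B'.mp B.mp h.mp h.comm I' hI' hinv'
    obtain ⟨c, ε, δ, hε, hδ, hK⟩ := H I hI hinv (by
      unfold Lives Bun.Nul at hL' ⊢
      rw [h.hU] at hL'
      have h2 := ENNReal.Tendsto.const_mul (a := 2) hL' (Or.inr ENNReal.ofNat_ne_top)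
      rw [mul_zero] at h2
      refine tendsto_of_tendsto_of_tendsto_of_le_of_le tendsto_const_nhds h2
        (fun _ => zero_le) fun M => ?_
      show B.P M _ ≤ 2 * B'.P M _
      rw [P_lv B M hI, P_lv B' M hI', h.hν, ← lintegral_const_mul' _ _ ENNReal.ofNat_ne_top]
      refine lintegral_mono fun d => ?_
      rw [lv_eq h]
      exact (hb _ (lv_meas B M d)).2)
    refine ⟨c, ε, δ / 2, hε, ENNReal.half_pos hδ.ne', fun K => ?_⟩
    obtain ⟨sp, w, hw, h1⟩ := hK K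
    refine ⟨sp, w, hw, ?_⟩
    rw [nc_eq h]
    refine ENNReal.div_le_of_le_mul' (h1.trans ?_)
    exact (hb _ (hNc Ω V B.toBase c sp w K ε)).1
  · have e : ∀ n c c', B'.μ (B'.decS n c c') = B.μ (B.decS n c c') := fun n c c' => by
      rw [← h.mp.measure_preimage (B.measurableSet_decS n c c').nullMeasurableSet]
      congr 1
      ext y
      simp only [Base.decS, mem_preimage, mem_ofPred_eq, h.hσ, h.hN]
    simp only [Dec2, e]

end Pool.Agent.MP_154433_an.T4A.T5B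

end PkPul2

section PkRli2

/-! The arrows live on the part of the space where arrows between all pairs exist. -/

set_option autoImplicit false

open MeasureTheory ProbabilityTheory Filter Topology Set
open scoped ENNReal

namespace Pool.Agent.MP_154433_an.T4A.T5B

open T3A T5A

theorem xRli2 : Rli2S := by
  intro Ω V J _ _ _ _ B κ _ K _ K0 _ Ip Φ hw h0 hL hΦ
  have := hΦ.markov
  have h1 := (hL.nul _ (measurable_fst.fst hΦ.mI.compl)).1
    (hΦ.ac2 (RliAux.lp_off B.toBase κ hΦ.mI Φ)) 0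
  have e : ({z | ((0 : V), (0 : V)) ∈ z.2} ∩ B.toBase.sA 0 0 ⁻¹'
      ((fun z : (Ω × Ω) × Arr V => z.1.1) ⁻¹' Ipᶜ)) =
      {z | ((0 : V), (0 : V)) ∈ z.2 ∧ z.1.1 ∈ Ipᶜ} := by
    ext z
    simp
  rw [e, RliAux.wOf_src _ _ hΦ.mI.compl,
    setLIntegral_eq_zero_iff hΦ.mI.compl (K0.measurable_coe (measurableSet_memA measurable_snd _))]
    at h1
  have hN : MeasurableSet {y | (∀ j, y ∈ Sup (K j)) ∧ y ∉ Ip} := by
    have : MeasurableSet (⋂ j, Sup (K j)) := MeasurableSet.iInter fun j => measurableSet_Sup _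
    convert this.inter hΦ.mI.compl using 1
    ext y
    simp
  have hN0 : B.μ {y | (∀ j, y ∈ Sup (K j)) ∧ y ∉ Ip} = 0 := by
    rw [measure_eq_zero_iff_ae_notMem]
    filter_upwards [h0, h1] with y a b c
    exact a c.1 (b c.2)
  have h2 : ∀ j, Tendsto (fun M => B.P M
      {z | ((0 : V), (0 : V)) ∈ B.Sg j M z.1 z.2 ∧ z.2 ∈ (Sup (K j))ᶜ}) B.U (𝓝 0) := by
    intro j
    have a := (hw j).2 _ ((Cyl.mem ((0 : V), (0 : V))).and
      (Cyl.fst _ (measurableSet_Sup (K j)).compl))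
    rw [RliAux.wOf_src _ _ (measurableSet_Sup (K j)).compl,
      setLIntegral_eq_zero (measurableSet_Sup (K j)).compl fun y hy => not_not.1 hy] at a
    exact a
  have h3 := tendsto_finsetSum Finset.univ fun j _ => h2 j
  rw [Finset.sum_const_zero] at h3
  refine tendsto_of_tendsto_of_tendsto_of_le_of_le tendsto_const_nhds h3 (fun _ => zero_le)
    fun M => ?_
  have hs : {z : (ℤ × ℤ) × Ω | (∀ j, ((0 : V), (0 : V)) ∈ B.Sg j M z.1 z.2) ∧ z.2 ∉ Ip} ⊆
      {z | z.2 ∈ {y | (∀ j, y ∈ Sup (K j)) ∧ y ∉ Ip}} ∪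
        ⋃ j, {z | ((0 : V), (0 : V)) ∈ B.Sg j M z.1 z.2 ∧ z.2 ∈ (Sup (K j))ᶜ} := by
    intro z hz
    by_cases h : ∀ j, z.2 ∈ Sup (K j)
    · exact Or.inl ⟨h, hz.2⟩
    · obtain ⟨j, hj⟩ := not_forall.1 h
      exact Or.inr (mem_iUnion.2 ⟨j, hz.1 j, hj⟩)
  refine (measure_mono hs).trans ((measure_union_le _ _).trans ?_)
  rw [RliAux.snd_null B M hN hN0, zero_add]
  exact measure_iUnion_fintype_le _ _

end Pool.Agent.MP_154433_an.T4A.T5B

end PkRli2

section PkTau2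

/-! Row Tau2: passage to one component keeps the uncovered points and the decay. -/

set_option autoImplicit false
set_option linter.unusedVariables false

open MeasureTheory ProbabilityTheory Filter Topology Set
open scoped ENNReal

namespace Pool.Agent.MP_154433_an.T4A.T5B

open T3A T5A

noncomputable section

namespace Tau2

/-- more classes cover more -/
theorem cov_mono {V : Type} [AddCommGroup V] {n : V → Prop} {v : ℤ → V} {sp : Finset ℤ}
    {w : ℤ → ℝ} {K K1 : ℕ} {ε : ℝ} (h : K ≤ K1) (hc : T5A.Cov n v sp w K ε) :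
    T5A.Cov n v sp w K1 ε := by
  classical
  obtain ⟨S, hS, hw⟩ := hc
  refine ⟨fun i => if hi : (i : ℕ) < K then S ⟨i, hi⟩ else ∅, fun i => ?_, ?_⟩
  · by_cases hi : (i : ℕ) < K
    · simp only [dif_pos hi]
      exact hS _
    · simp only [dif_neg hi]
      intro P hP Q hQ _ hne
      rw [Finset.powerset_empty, Finset.mem_singleton] at hP hQ
      rw [hP, hQ] at hne
      simp at hne
  · refine le_trans (le_of_eq (Finset.sum_congr ?_ fun _ _ => rfl)) hw
    ext d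
    simp only [Finset.mem_filter]
    refine and_congr_right fun _ => and_congr_right fun _ => ⟨fun H i => ?_, fun H i => ?_⟩
    · have := H ⟨i, lt_of_lt_of_le i.2 h⟩
      rwa [dif_pos i.2] at this
    · by_cases hi : (i : ℕ) < K
      · rw [dif_pos hi]; exact H _
      · rw [dif_neg hi]; exact Finset.notMem_empty d

theorem avgI {Ω : Type} [MeasurableSpace Ω] {μ : Measure Ω} {T : Act ℤ Ω} {κ : Kernel Ω Ω}
    (h : ErgK μ T κ) {E I : Set Ω} (hE : MeasurableSet E) (hI : MeasurableSet I)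
    (hT : ∀ n, tz T n ⁻¹' I = I) :
    ∫⁻ a, I.indicator (fun a => κ a E) a ∂μ = μ (E ∩ I) := by
  have hm : Measurable (I.indicator (1 : Ω → ℝ≥0∞)) := measurable_one.indicator hI
  have e1 : ∀ a, I.indicator (fun a => κ a E) a = I.indicator (1 : Ω → ℝ≥0∞) a * κ a E := by
    intro a
    by_cases ha : a ∈ I
    · simp [ha]
    · simp [ha]
  simp only [e1]
  rw [h.int _ hm (fun n y => by
    have := mem_tz T hT n y
    by_cases hy : y ∈ I
    · simp [hy, this.2 hy]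
    · simp [hy, mt this.1 hy]) _ hE, lintegral_indicator_one hI, Measure.restrict_apply hI,
    inter_comm]

end Tau2

open Tau2 TauAux in
theorem xTau2 : Tau2S := by
  intro hN h1 h2 hS hU Ω V _ _ _ B κ L Ip Φ g Pos hE hP hH hrel hdec
  obtain ⟨c, ε, δ, hε, hδ, hrel⟩ := hrel
  obtain ⟨k, hdec⟩ := hdec
  choose sp w hw hrel using hrel
  have := hE.markov
  have := hP.markov
  obtain ⟨t1, t1'⟩ := h1 ℤ Ω V B κ L Ip Φ hE hP
  have q1 := t1 _ (hH.iso.and hH.itw)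
  have q2 := h2 ℤ Ω V B κ Ip Φ hE hP.mI hH.quasi _ (hH.iso.and (hH.itw.and hH.pos))
  have q3 : ∀ᵐ a ∂B.μ, ∀ᵐ y ∂(κ a), y ∈ Ip → ∀ i, Iso (B.N y) (B.N y) (g i y) := by
    have := hH.gi
    rw [← hE.bind] at this
    exact Measure.ae_ae_of_ae_comp this
  have q4 := Measure.ae_ae_of_ae_compProd hH.hit
  have q5 := hE.conc Ip hP.mI hP.inv
  obtain ⟨s, hs, q6⟩ := hU Ω (V × V) B.μ (fun i q a => κ a (B.decS (k i) q.1 q.2))
    (fun i q => κ.measurable_coe (B.measurableSet_decS _ _ _))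
    (fun q => by
      simp only [avg0 hE.toErgK (B.measurableSet_decS _ _ _)]
      exact hdec q.1 q.2)
  obtain ⟨a, ⟨⟨⟨⟨⟨⟨⟨⟨a1, a2⟩, a3⟩, a4⟩, a5⟩, a6⟩, a7⟩, a8⟩, a9⟩, hR⟩ := hS Ω B.μ
    (fun K => Ip.indicator (fun a => κ a (ncS B c (sp K) (w K) K ε))) δ _
    (fun K => (κ.measurable_coe (hN Ω V B c _ _ K ε)).indicator hP.mI)
    (fun K x => le_trans (indicator_le_self _ _ x) prob_le_one) hδ
    (Eventually.frequently (Eventually.of_forall fun K => by
      rw [avgI hE.toErgK (hN Ω V B c _ _ K ε) hP.mI hP.inv]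
      exact hrel K))
    ((((((((hE.mp.and q5).and q1).and t1').and q2).and hH.gi).and q3).and q4).and q6)
  have ha : a ∈ Ip := by
    by_contra hc
    obtain ⟨M, this⟩ := hR.exists
    rw [indicator_of_notMem hc] at this
    exact absurd this (not_le.2 (ENNReal.half_pos hδ.ne'))
  obtain ⟨τ, mτ, hτ⟩ := a5 ha
  have hin : ∀ᵐ y ∂(κ a), y ∈ Ip := a2 ha
  refine ⟨{ B with μ := κ a, prob := inferInstance, mp := a1 }, B.N a, τ,
    fun i => g i a, ((κ a).prod (κ a)) ⊗ₘ Φ,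
    ⟨mτ, hH.geq, a6 ha, ?_, ?_, ?_, Measure.fst_compProd _ _, a4, a3 ha⟩,
    ⟨c, ε, δ / 2, hε, ENNReal.half_pos hδ.ne', fun K => ?_⟩,
    fun i => k (s i), fun c c' => a9 (c, c')⟩
  · filter_upwards [hin, a7] with y hy h using h hy
  · filter_upwards [hτ] with y h
    have := h 0
    rw [neg_zero, sh_zero, tz_zero] at this
    exact ⟨this.1, this.2.1⟩
  · filter_upwards [hτ, a8] with y h hh n p q ⟨e, p1, p2⟩ ⟨e', q1, q2⟩
    have h0 := h 0
    rw [neg_zero, sh_zero, tz_zero] at h0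
    exact hh (p.1, e) (q.1, e') (p.2, e) (q.2, e') ((h n).2.2 _ p1 _ q1) (h0.2.2 _ p2 _ q2) rfl rfl
  · obtain ⟨K1, hK1, hM⟩ := frequently_atTop.1 hR K
    rw [indicator_of_mem ha] at hM
    refine ⟨sp K1, w K1, hw K1, hM.trans ?_⟩
    rw [inter_univ]
    exact measure_mono fun y hy hc => hy (cov_mono hK1 hc)

end

end Pool.Agent.MP_154433_an.T4A.T5B

end PkTau2

section PkPsr2

/-! Covering and decay read in the trivialisation; passage to a commutative group. -/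

set_option autoImplicit false
set_option linter.unusedVariables false

open MeasureTheory ProbabilityTheory Filter Topology Set
open scoped ENNReal

namespace Pool.Agent.MP_154433_an.T4A.T5B

open T3A T5A

namespace Psr2Aux

variable {V Γ : Type} [AddCommGroup V] [AddCommGroup Γ]

lemma dis_iff (θ : V →+ Γ) {n : V → Prop} (h : ∀ c, θ c = 0 ↔ n c) (v : ℤ → V) (S : Finset ℤ) :
    Dis (fun a => a = 0) (fun d => θ (v d)) S ↔ Dis n v S := by
  unfold Dis
  simp only [← h, map_sub, map_sum]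

lemma cov_of (θ : V →+ Γ) {n : V → Prop} (h : ∀ c, θ c = 0 ↔ n c) (v : ℤ → V) (sp : Finset ℤ)
    (w : ℤ → ℝ) (K : ℕ) (ε : ℝ) (hc : Cov (fun a => a = 0) (fun d => θ (v d)) sp w K ε) :
    Cov n v sp w K ε := by
  classical
  obtain ⟨S, h1, h2⟩ := hc
  refine ⟨S, fun i => (dis_iff θ h v _).1 (h1 i), le_trans (le_of_eq ?_) h2⟩
  refine Finset.sum_congr ?_ fun _ _ => rfl
  ext d
  simp only [Finset.mem_filter, h]

lemma tend_of_le {a : ℕ → ℝ≥0∞}
    (h : ∀ ε : ℝ≥0∞, 0 < ε → ∃ (ι : Type) (S : Finset ι) (b : ι → ℕ → ℝ≥0∞),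
      (∀ p ∈ S, Tendsto (b p) atTop (𝓝 0)) ∧ ∀ k, a k ≤ ε + ∑ p ∈ S, b p k) :
    Tendsto a atTop (𝓝 0) := by
  rw [ENNReal.tendsto_nhds_zero]
  intro ε hε
  have h2 : 0 < ε / 2 := ENNReal.div_pos hε.ne' (by norm_num)
  obtain ⟨ι, S, b, hb, hab⟩ := h _ h2
  have hs : Tendsto (fun i => ∑ p ∈ S, b p i) atTop (𝓝 0) := by
    have := tendsto_finsetSum S fun p hp => hb p hp
    simpa using this
  filter_upwards [ENNReal.tendsto_nhds_zero.1 hs _ h2] with i hi
  calc a i ≤ ε / 2 + ∑ p ∈ S, b p i := hab i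
    _ ≤ ε / 2 + ε / 2 := by gcongr
    _ = ε := ENNReal.add_halves ε

end Psr2Aux

theorem xPsr2 : Psr2S := by
  intro Ω V Γ _ _ _ _ _ A θ Ψ hθ hΨ
  refine ⟨fun c sp w K ε => measure_mono_ae ?_,
    fun k hk ξ ξ' hξ => Psr2Aux.tend_of_le fun ε hε => ?_⟩
  · filter_upwards [hθ.sur, hΨ.def'] with y h1 h2 hy hc
    refine hy (Psr2Aux.cov_of (θ y) h1.2 _ sp w K ε ?_)
    have e : (fun d => Ψ d y (θ (tz A.T d y) c)) = fun d => θ y (sz A.σ d c) :=
      funext fun d => h2 d c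
    rw [← e]
    exact hc
  · obtain ⟨S, hS⟩ := PsrAux.step hθ hΨ (ξ := ξ) hξ hε
    exact ⟨V × V, S, fun p i => A.μ (A.decS (k i) p.1 p.2), fun p _ => hk p.1 p.2,
      fun i => hS _⟩

theorem xFin2 : Fin2S := by
  classical
  intro core Ga _ _ Y _ m _ T hT P C hC hPC hco ht x hx k hdec ε δ hε hδ
  have hcm : IsMulCommutative (Subgroup.closure C) := Subgroup.isMulCommutative_closure hC
  let : CommGroup (Subgroup.closure C) :=
    { (inferInstance : Group (Subgroup.closure C)) with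
      mul_comm := fun a b => hcm.is_comm.comm a b }
  let P' : ℤ → Y → Subgroup.closure C := fun n y =>
    if h : P n y ∈ C then ⟨P n y, Subgroup.subset_closure h⟩ else 1
  have hall : ∀ᵐ y ∂m, ∀ n, (P' n y : Au Ga) = P n y := by
    filter_upwards [ae_all_iff.mpr hPC] with y hy n
    simp [P', hy n]
  have hsm : ∀ (g : Subgroup.closure C) (a : Ga), g • a = (g : Au Ga) a := fun _ _ => rfl
  obtain ⟨K, hK⟩ := core Y Ga (Subgroup.closure C) m (tz T) hT P'
    (by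
      intro n k
      filter_upwards [hco n k, hall, (hT n).quasiMeasurePreserving.ae hall] with y h1 h2 h3
      apply Subtype.ext
      rw [Subgroup.coe_mul, h2, h2, h3, h1])
    (by
      intro a eps he
      obtain ⟨F, hF⟩ := ht a eps he
      refine ⟨F, fun n => le_trans (le_of_eq (measure_congr ?_)) (hF n)⟩
      filter_upwards [Measure.quasiMeasurePreserving_fst.ae hall,
        Measure.quasiMeasurePreserving_snd.ae hall] with p h1 h2
      show (((P' n p.2)⁻¹ * P' n p.1) • a ∉ F) = ((P n p.2)⁻¹ (P n p.1 a) ∉ F)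
      rw [hsm, Subgroup.coe_mul, Subgroup.coe_inv, h1, h2]
      rfl)
    x (fun a => (hx a).nullMeasurableSet) k
    (by
      intro a b hb
      have e : (fun i : ℕ => m {y | P' (k i) y • a = b}) = fun i : ℕ => m {y | P (k i) y a = b} := by
        funext i
        refine measure_congr ?_
        filter_upwards [hall] with y hy
        show (_ = _) = (_ = _)
        simp only [hsm, hy]
      rw [e]
      exact hdec a b hb)
    ε δ hε hδ
  refine ⟨K, fun sp w hw => lt_of_le_of_lt (le_of_eq (measure_congr ?_)) (hK sp w hw)⟩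
  filter_upwards [hall] with y hy
  have e : (fun d => P' d y • x (tz T d y)) = fun d => P d y (x (tz T d y)) := by
    funext d
    simp only [hsm, hy]
  show (¬ Cov _ (fun d => P d y (x (tz T d y))) sp w K ε) =
    (¬ Cov _ (fun d => P' d y • x (tz T d y)) sp w K ε)
  rw [e]

end Pool.Agent.MP_154433_an.T4A.T5B

end PkPsr2

section PkShz

/-! Row Shz: equivariance for all powers, decay along one sequence. -/

set_option autoImplicit false
set_option linter.unusedVariables false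

open MeasureTheory ProbabilityTheory Filter Topology Set
open scoped ENNReal

namespace Pool.Agent.MP_154433_an.T4A.T5B

open T3A T5A

namespace Shz

variable {ν : T3x.Wt} {U : Ultrafilter ℕ} {X : T3x.Sys}

lemma av2_mono (M : ℕ) {φ ψ : T3x.Lab → ℝ} (h : ∀ l, φ l ≤ ψ l) : ν.av2 M φ ≤ ν.av2 M ψ :=
  Finset.sum_le_sum fun d _ => mul_le_mul_of_nonneg_left
    (Finset.sum_le_sum fun d' _ => mul_le_mul_of_nonneg_left (h _) (ν.nn M d')) (ν.nn M d)

lemma av2_const (M : ℕ) (c : ℝ) : ν.av2 M (fun _ => c) = c := by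
  simp only [T3x.Wt.av2, T3x.Wt.av, smul_eq_mul, ← Finset.sum_mul, ν.one, one_mul]

lemma av2_add (M : ℕ) (φ ψ : T3x.Lab → ℝ) :
    ν.av2 M (fun l => φ l + ψ l) = ν.av2 M φ + ν.av2 M ψ := by
  simp only [T3x.Wt.av2, T3x.Wt.av, smul_eq_mul, mul_add, Finset.sum_add_distrib]

lemma mp (k : ℤ) : MeasurePreserving (X.Tz k) X.μ X.μ := T3A.mp_tz X.mp k

lemma T_Tz (k : ℤ) (y : X.X) : X.T (X.Tz k y) = X.Tz (k + 1) y := T3A.T_tz X.T k y

lemma nul_step {E E₁ E₂ : T3x.Lab → Set X.X} (k : ℤ) (h₁ : T3x.Nl ν U X E₁)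
    (h₂ : T3x.Nl ν U X E₂) (h : ∀ l y, y ∈ E l → y ∈ E₁ l ∨ X.Tz k y ∈ E₂ l) :
    T3x.Nl ν U X E := by
  have hs := h₁.add h₂
  rw [add_zero] at hs
  refine tendsto_of_tendsto_of_tendsto_of_le_of_le tendsto_const_nhds hs (fun M => ?_) fun M => ?_
  · exact (av2_const M 0).ge.trans (av2_mono M fun l => measureReal_nonneg)
  · refine (av2_mono M fun l => ?_).trans_eq (av2_add M _ _)
    refine (measureReal_mono (s₂ := E₁ l ∪ X.Tz k ⁻¹' E₂ l) (h l)).trans
      ((measureReal_union_le _ _).trans (add_le_add le_rfl ?_))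
    refine ENNReal.toReal_mono (measure_ne_top _ _) ?_
    exact (Measure.le_map_apply (mp k).measurable.aemeasurable _).trans_eq (by rw [(mp k).map_eq])

variable {V : Type} [AddCommGroup V] (sg : AddAut V)

lemma sg_succ (k : ℤ) (a : V) : ((k + 1) • sg) a = (k • sg) (sg a) := by
  rw [add_zsmul, one_zsmul, AddAut.add_apply]

lemma sg_pred (k : ℤ) (a : V) : ((k - 1) • sg) a = (k • sg) (sg.symm a) := by
  have h := sg_succ sg (k - 1) (sg.symm a)
  rw [sub_add_cancel, AddEquiv.apply_symm_apply] at h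
  exact h.symm

end Shz

open Shz in
theorem xShz : ShzS := by
  intro ν U X V _ sg N Sg n H
  refine ⟨fun k => ?_, fun k => ?_⟩
  · induction k using Int.induction_on with
    | zero =>
      intro v
      refine ae_of_all _ fun x => ?_
      rw [zero_zsmul]
      exact Iff.rfl
    | succ k ih =>
      intro v
      filter_upwards [ih (sg v), (mp k).quasiMeasurePreserving.ae (H.nsh v)] with x h1 h2
      rw [sg_succ, h1, h2, T_Tz]
    | pred k ih =>
      intro v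
      filter_upwards [ih (sg.symm v),
        (mp (-(k : ℤ) - 1)).quasiMeasurePreserving.ae (H.nsh (sg.symm v))] with x h1 h2
      rw [T_Tz, sub_add_cancel, AddEquiv.apply_symm_apply] at h2
      rw [sg_pred, h1, h2]
  · induction k using Int.induction_on with
    | zero =>
      intro a a'
      have e : ∀ l, {y | ¬ (y ∈ Sg l (((0 : ℤ) • sg) a) (((0 : ℤ) • sg) a') ↔
          X.Tz 0 y ∈ Sg l a a')} = ∅ := fun l => by
        rw [zero_zsmul]
        exact eq_empty_of_forall_notMem fun y hy => hy Iff.rfl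
      simp only [T3x.Nl, e, measureReal_empty, av2_const]
      exact tendsto_const_nhds
    | succ k ih =>
      intro a a'
      refine nul_step k (ih (sg a) (sg a')) (H.sh a a') fun l y hy => ?_
      simp only [mem_ofPred_eq, sg_succ, ← T_Tz] at hy ⊢
      tauto
    | pred k ih =>
      intro a a'
      refine nul_step (-(k : ℤ) - 1) (ih (sg.symm a) (sg.symm a'))
        (H.sh (sg.symm a) (sg.symm a')) fun l y hy => ?_
      simp only [mem_ofPred_eq, sg_pred, T_Tz, sub_add_cancel, AddEquiv.apply_symm_apply] at hy ⊢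
      tauto

open Shz in
theorem xDek : DekS := by
  intro ν U X V _ _ sg N h
  obtain ⟨e, he⟩ := exists_surjective_nat (V × V)
  have h1 : ∀ i : ℕ, Tendsto (fun M => ν.av2 M fun l => ∑ j ∈ Finset.range i,
      X.μ.real (N (((l.2.1 - l.2.2) • sg) (e j).1 - (e j).2) \ N (e j).2)) U (𝓝 0) := fun i => by
    induction i with
    | zero => simp only [Finset.range_zero, Finset.sum_empty, av2_const, tendsto_const_nhds]
    | succ i ih =>
      simp only [Finset.sum_range_succ, av2_add]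
      simpa only [add_zero] using ih.add (h (e i).1 (e i).2)
  have h2 : ∀ i : ℕ, ∃ l : T3x.Lab, ∑ j ∈ Finset.range i,
      X.μ.real (N (((l.2.1 - l.2.2) • sg) (e j).1 - (e j).2) \ N (e j).2) ≤
        1 / ((i : ℝ) + 1) := fun i => by
    by_contra c
    push Not at c
    obtain ⟨M, hM⟩ := ((h1 i).eventually (gt_mem_nhds (Nat.one_div_pos_of_nat (n := i)))).exists
    exact absurd ((av2_const M _).ge.trans (av2_mono M fun l => (c l).le)) hM.not_ge
  choose l hl using h2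
  refine ⟨fun i => (l i).2.1 - (l i).2.2, fun a a' => ?_⟩
  obtain ⟨j, hj⟩ := he (a, a')
  refine (ENNReal.tendsto_toReal_zero_iff fun _ => measure_ne_top _ _).1 ?_
  refine tendsto_of_tendsto_of_tendsto_of_le_of_le' tendsto_const_nhds
    tendsto_one_div_add_atTop_nhds_zero_nat (Eventually.of_forall fun _ => ENNReal.toReal_nonneg) ?_
  filter_upwards [eventually_gt_atTop j] with i hi
  refine le_trans ?_ (hl i)
  have := Finset.single_le_sum (f := fun j => X.μ.real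
    (N ((((l i).2.1 - (l i).2.2) • sg) (e j).1 - (e j).2) \ N (e j).2))
    (fun _ _ => measureReal_nonneg) (Finset.mem_range.2 hi)
  rw [hj] at this
  exact this

end Pool.Agent.MP_154433_an.T4A.T5B

end PkShz

section PkOwn

/-! The algebraic step for dissociated families: assembly on bundles. -/

set_option autoImplicit false
set_option linter.unusedVariables false
set_option linter.unusedSectionVars false

open MeasureTheory ProbabilityTheory Filter Topology Set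
open scoped ENNReal

namespace Pool.Agent.MP_154433_an.T4A.T5B

open T3A T5A

noncomputable section

theorem algO_of (R : Rows) (pul : Pul2O) (rli : Rli2S) (tau : Tau2O) (psr : Psr2S) (fin : Fin2O) :
    AlgO := by
  intro X V J _ _ _ _ _ B0 hg h0 hF hR hD
  obtain ⟨j0⟩ : Nonempty J := inferInstance
  obtain ⟨Ω, _, _, B, p0, e0⟩ := R.push ℤ X V J B0
  obtain ⟨q1, q2, -, -⟩ := R.pull ℤ X Ω V J B0 B p0 e0
  obtain ⟨q3, q4⟩ := pul X Ω V J B0 B p0 e0
  have h := q1.1 h0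
  have hgB : AddSubgroup.closure (range B.a ∪ range B.b) = ⊤ := by rw [← e0.ha, ← e0.hb]; exact hg
  obtain ⟨κ, K, H, Ip, Φ, hκ, hw, hK, hK0, hL, hΦ⟩ := cons R B h j0 hgB
  have hW := R.wk ℤ Ω V B.toBase H _ hK0
  have := hW.prob
  have := hκ.markov
  have := hL.fin
  have hI := (R.lae ℤ Ω V B.toBase κ _ hL).1 hK0.iso
  have fl0 : FlatM B (wOf B.μ (cmpL K j0 Finset.univ.toList)) :=
    ind_cmpL R hK j0 (fun K0 => FlatM B (wOf B.μ K0)) (flatM_of_flat (hw j0) (q2.1 hF))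
      (fun j H0 K0 h1 h2 => R.cfl ℤ Ω V J B _ _ _ (kd_star R (hK j) h1).2
        (R.wk ℤ Ω V B.toBase _ _ (hK j)).inv (hK j).iso h1.iso
        (flatM_of_flat (hw j) (q2.1 hF)) h2) _
  have fl : FlatM B (Lf B.toBase κ Φ) :=
    R.f4 ℤ Ω V J B κ _ Ip Φ hΦ (R.f3 ℤ Ω V J B _ (R.f2 ℤ Ω V J B _ fl0 h hW.src))
  obtain ⟨Y, _, _, B', p, e, S, S', hS⟩ := xHat R.iid R.xi ℤ Ω V J B κ _ Ip Φ hκ hΦ
  obtain ⟨r1, -, -, -⟩ := R.pull ℤ Y Ω V J B' B p hS.ext
  obtain ⟨r3, r4⟩ := pul Y Ω V J B' B p hS.ext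
  have hgB' : AddSubgroup.closure (range B'.a ∪ range B'.b) = ⊤ := by
    rw [hS.ext.ha, hS.ext.hb]; exact hgB
  obtain ⟨κ', K', H', Ip', Φ', hκ', hw', hK', hK0', hL', hΦ'⟩ := cons R B' (r1.2 h) j0 hgB'
  have := hκ'.markov
  have mK : ∀ j, IsMarkovKernel (K j) := fun j => (hK j).markov
  have mK' : ∀ j, IsMarkovKernel (K' j) := fun j => (hK' j).markov
  have := hK0.markov
  have := hK0'.markov
  have mp := hS.ext.mp.measurable
  have pk : ∀ j, PrK B'.μ p (K' j) (K j) := fun j =>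
    R.pk ℤ Y Ω V J B' B p j (K' j) (K j) hS.ext (hw' j) (hw j)
  have pk0 : ∀ l : List J, PrK B'.μ p (cmpL K' j0 l) (cmpL K j0 l) := by
    intro l
    induction l with
    | nil => exact pk j0
    | cons j l ih =>
      obtain ⟨_, -, k1⟩ := kd_cmpL R hK j0 l
      obtain ⟨_, -, k2⟩ := kd_cmpL R hK' j0 l
      have := k1.markov
      have := k2.markov
      exact R.cpr Y Ω V B'.μ p (K' j) _ (K j) _ mp (R.wk ℤ Y V B'.toBase _ _ (hK' j)).tgt (pk j) ih
  have hpr := R.prj ℤ Y Ω V J B' B p κ' κ _ _ hS.ext (pk0 _) hL' hL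
  have hkd := R.kd ℤ Y Ω B'.μ B.μ B'.T B.T κ' κ p B'.mp B.mp hκ'.toErgK hκ.toErgK hS.ext.mp
    hS.ext.comm
  have geq : ∀ i n y, loop (S i (tz B'.T n y)) (S' i (tz B'.T n y)) =
      sh B'.σ n n (loop (S i y) (S' i y)) := by
    intro i n y
    rw [hS.eqv, hS.eqv', loop_sh, hS.ext.hσ]
  have mg : ∀ i, Measurable fun y => loop (S i y) (S' i y) := fun i =>
    measurable_loop (hS.mS i) (hS.mS' i)
  have g5 := R.g5 ℤ Y Ω V J B' B p κ _ Ip Φ e S S' hS hΦ hI
  have tot : ∀ j, ∀ᵐ z ∂(wOf B'.μ (K' j)), ∀ i, (loop (S i z.1.1) (S' i z.1.1)).Nonempty →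
      ∀ c, ∃ c', (c, c') ∈ loop (S i z.1.2) (S' i z.1.2) := by
    intro j
    have w := R.wk ℤ Y V B'.toBase _ _ (hK' j)
    have c1 := w.conc (p ⁻¹' Ip) (mp hΦ.mI) fun n => EventuallyEq.of_eq (by
      ext y
      change p (tz B'.T n y) ∈ Ip ↔ p y ∈ Ip
      rw [hS.ext.comm, mem_tz B.T hΦ.inv])
    have c2 := ae_of_ae_map measurable_fst.fst.aemeasurable (w.src.symm ▸ g5)
    have c3 := ae_of_ae_map measurable_fst.snd.aemeasurable (w.tgt.symm ▸ g5)
    filter_upwards [c1, c2, c3] with z h1 h2 h3 i hne c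
    by_cases hz : p z.1.1 ∈ Ip
    · exact (h3.1 (h1 hz) i).totL c
    · rw [h2.2 hz i] at hne
      exact absurd hne Set.not_nonempty_empty
  have it0 : ItwW (fun i y => loop (S i y) (S' i y)) (wOf B'.μ (cmpL K' j0 Finset.univ.toList)) :=
    ind_cmpL R hK' j0 (fun K0 => ItwW (fun i y => loop (S i y) (S' i y)) (wOf B'.μ K0))
      (R.int ℤ Y Ω V J B' B p κ Φ e S S' j0 _ hS fl (hw' j0))
      (fun j H0 K0 h1 h2 => R.cit Y V _ _ _ _ (kd_star R (hK' j) h1).2 mg (tot j)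
        (R.int ℤ Y Ω V J B' B p κ Φ e S S' j _ hS fl (hw' j)) h2) _
  have po0 : ∀ᵐ y ∂B'.μ, (∀ j, y ∈ Sup (K' j)) → y ∈ Sup (cmpL K' j0 Finset.univ.toList) :=
    ind_cmpL R hK' j0 (fun K0 => ∀ᵐ y ∂B'.μ, (∀ j, y ∈ Sup (K' j)) → y ∈ Sup K0)
      (Eventually.of_forall fun y hy => hy j0)
      (fun j H0 K0 h1 h2 => by
        filter_upwards [h2, R.cpo R.wk ℤ Y V B'.toBase _ _ _ _ (hK' j) h1] with y a1 a2 hy
        exact a2 (hy j) (a1 hy)) _
  obtain ⟨g1, g2⟩ := R.g4 ℤ Y Ω V J B' B p κ' κ _ _ Ip' Ip Φ' Φ e S S' hS hΦ' hΦ hpr hkd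
  have k1 : ∀ᵐ z ∂(Lp B'.toBase κ' Ip' Φ'), Iso (B'.N z.1.1) (B'.N z.1.2) z.2 :=
    Filter.Eventually.filter_mono hΦ'.ac1.ae_le ((R.lae ℤ Y V B'.toBase κ' _ hL').1 hK0'.iso)
  have k2 : ∀ᵐ z ∂(Lp B'.toBase κ' Ip' Φ'), ∀ i, Itw (loop (S i z.1.1) (S' i z.1.1))
      (loop (S i z.1.2) (S' i z.1.2)) z.2 :=
    Filter.Eventually.filter_mono hΦ'.ac1.ae_le
      ((R.lae ℤ Y V B'.toBase κ' _ hL').2 (fun i y => loop (S i y) (S' i y)) mg geq it0)
  have k3 : ∀ᵐ y ∂B'.μ, y ∈ Ip' → ∀ i, Iso (B'.N y) (B'.N y) (loop (S i y) (S' i y)) := by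
    filter_upwards [g5, R.g3 ℤ Y Ω V J B' B p κ' κ _ _ Ip' Ip Φ' Φ mp hΦ' hΦ hpr] with y a1 a2 hy
    exact a1.1 (a2 hy)
  have hH : HatD B'.toBase κ' Ip' Φ' (fun i y => loop (S i y) (S' i y))
      (fun z a b => Φ (p z.1, p z.2) {R | a ∈ R ∧ b ∈ R} ≠ 0) :=
    ⟨geq, fun n E hE h1 => hΦ'.ac1 (hL'.quasi 0 n E hE (hΦ'.ac2 h1)), k1, k2, g1, k3, g2⟩
  have rl := r3.2 (q3.1 hR) Ip' hΦ'.mI hΦ'.inv (rli Y V J B' κ' K' _ Ip' Φ' hw' po0 hL' hΦ')
  obtain ⟨A, N0, τ, G0, m2, hX, ⟨c, ε, δ, hε, hδ, hrel⟩, k, hdec⟩ := tau Y V B'.toBase κ'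
    _ Ip' Φ' _ _ hκ' hΦ' hH rl (r4.2 (q4.1 hD))
  have : Countable (V ⧸ N0) := QuotientAddGroup.mk_surjective.countable
  obtain ⟨θ, γ, hT⟩ := R.th R.mk' ℤ Y V A N0 τ G0 _ m2 hX
  obtain ⟨Ψ, hΨ⟩ := R.psi R.mk' ℤ Y V _ A θ hT.toTh
  obtain ⟨s1, s2⟩ := psr Y V _ A θ Ψ hT.toTh hΨ
  obtain ⟨s, ms, hs⟩ := R.sd R.mk' ℤ Y V _ A θ γ _ m2 hT hX.fst2 hX.iso2
  obtain ⟨C, c1, c2, c3⟩ := R.ct ℤ Y V _ A θ γ _ Ψ m2 s hT hΨ hX.fst2 hX.inv2 ms hs
  obtain ⟨Kc, hKc⟩ := fin _ Y A.μ A.T A.mp Ψ C c1 c2 hΨ.coc c3 (fun y => θ y c)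
    (fun ξ => hT.mθ _ ξ) k (s2 k hdec) ε δ hε hδ
  obtain ⟨sp, w, hp, hle⟩ := hrel Kc
  rw [inter_univ] at hle
  exact absurd (hle.trans (s1 c sp w Kc ε)) (not_le.2 (hKc sp w hp))

end

end Pool.Agent.MP_154433_an.T4A.T5B

end PkOwn

section PkBr

/-! From the algebraic step on bundles to the statement of the main development. -/

set_option autoImplicit false
set_option linter.unusedVariables false

open MeasureTheory ProbabilityTheory Filter Topology Set
open scoped ENNReal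

namespace Pool.Agent.MP_154433_an.T4A.T5B

open T3A T5A

noncomputable section

open T3x (Wt Lab)

lemma cov_of {V : Type} [AddCommGroup V] {n n' : V → Prop} (h : ∀ u, n u ↔ n' u) {v : ℤ → V}
    {sp : Finset ℤ} {w : ℤ → ℝ} {K : ℕ} {ε : ℝ} (hc : Cov n v sp w K ε) :
    T5x.Cov n' v sp w K ε := by
  obtain rfl : n = n' := funext fun u => propext (h u)
  obtain ⟨S, h1, h2⟩ := hc
  exact ⟨S, fun i P hP Q hQ => h1 i P (Finset.mem_powerset.2 hP) Q (Finset.mem_powerset.2 hQ), h2⟩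

theorem bridge (hA : AlgO) (hE : ExaS)
    (hm : ∀ (ν : Wt) (U : Ultrafilter ℕ), (U : Filter ℕ) ≤ atTop → T3x.ERG ν → Mix ℤ (wm ν) U)
    (shz : ShzS) (dek : DekS) : T5x.AlgS2 := by
  classical
  intro ν U X V _ _ sg N Sg n h
  obtain ⟨nz, sz'⟩ := shz ν U X V sg N Sg n h.toAlgD1
  have mp : ∀ k : ℤ, MeasurePreserving (X.Tz k) X.μ X.μ := fun k => T3A.mp_tz X.mp k
  have mT : ∀ k : ℤ, Measurable (X.Tz k) := fun k => (mp k).measurable
  let T : Act ℤ X.X := ⟨X.Tz, mT, fun y => T3A.tz_zero X.T y, fun a b y => T3A.tz_add X.T a b y⟩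
  let σ : VAct ℤ V := ⟨fun k => (k • sg).toAddMonoidHom, fun c => by simp,
    fun g g' c => by simp [add_zsmul, AddAut.add_apply]⟩
  obtain ⟨N', mN, eN, aN⟩ := hE ℤ X.X V X.μ T σ N mp h.mN h.n0 h.nsub nz
  have hn : ∀ M (d : ℤ × ℤ), n (lab true M d) = d.1 • (-1 : ℤ) + d.2 • (1 : ℤ) := by
    intro M d
    rw [h.hn]
    simp only [lab, if_true, smul_eq_mul]
    ring
  let B : Bun ℤ X.X V Unit :=
    { μ := X.μ, prob := X.pr, T := T, mp := mp, σ := σ, N := N'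
      mN := mN, eqz := eN, ν := wm ν, pν := fun _ => inferInstance, U := U
      a := fun _ => -1, b := fun _ => 1
      Sg := fun _ M d y => {p | y ∈ Sg (lab true M d) p.1 p.2}
      mS := fun _ M d => measurable_set_iff.2 fun p =>
        measurableSet_setOfPred.1 (h.mS (lab true M d) p.1 p.2) }
  have aZ : ∀ k : ℤ, ∀ᵐ y ∂X.μ, ∀ c, c ∈ N' (tz T k y) ↔ X.Tz k y ∈ N c := fun k =>
    (mp k).quasiMeasurePreserving.ae aN
  have mi : ∀ {A A' : Set X.X}, MeasurableSet A → MeasurableSet A' →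
      MeasurableSet {y | ¬ (y ∈ A ↔ y ∈ A')} := fun hA hA' =>
    measurableSet_setOfPred.2 ((measurableSet_setOfPred.1 hA).iff (measurableSet_setOfPred.1 hA')).not
  have tot : ∀ (j : Unit) (c : V) (ε : ℝ≥0∞), 0 < ε → ∃ F : Finset V,
      ∀ᶠ M in (U : Filter ℕ),
      B.P M (B.pt j M ⁻¹' {a | ((0 : V), (0 : V)) ∈ a.2 ∧ ∀ c' ∈ F, (c, c') ∉ a.2}) ≤ ε ∧
      B.P M (B.pt j M ⁻¹' {a | ((0 : V), (0 : V)) ∈ a.2 ∧ ∀ c' ∈ F, (c', c) ∉ a.2}) ≤ ε := by
    intro j c ε hε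
    obtain ⟨ε', h1, h2⟩ : ∃ ε' : ℝ, 0 < ε' ∧ ENNReal.ofReal ε' ≤ ε := by
      obtain ⟨x, -, hx1, hx2⟩ := ENNReal.lt_iff_exists_real_btwn.1 hε
      exact ⟨x, ENNReal.ofReal_pos.1 hx1, hx2.le⟩
    obtain ⟨F, hF⟩ := h.tot c ε' h1
    refine ⟨F, hF.mono fun M hM => ⟨?_, ?_⟩⟩
    · refine (key_le ν true M X (A := fun l => Sg l 0 0 \ ⋃ a' ∈ F, Sg l c a')
        (fun l => (h.mS l 0 0).diff (F.measurableSet_biUnion fun a' _ => h.mS l c a'))
        (fun d => Eventually.of_forall fun y hy => ⟨hy.1, ?_⟩)).trans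
        ((ENNReal.ofReal_le_ofReal hM.1).trans h2)
      intro hu
      obtain ⟨a', ha', hu⟩ := mem_iUnion₂.1 hu
      exact hy.2 a' ha' hu
    · refine (key_le ν true M X (A := fun l => Sg l 0 0 \ ⋃ a' ∈ F, Sg l a' c)
        (fun l => (h.mS l 0 0).diff (F.measurableSet_biUnion fun a' _ => h.mS l a' c))
        (fun d => Eventually.of_forall fun y hy => ⟨hy.1, ?_⟩)).trans
        ((ENNReal.ofReal_le_ofReal hM.2).trans h2)
      intro hu
      obtain ⟨a', ha', hu⟩ := mem_iUnion₂.1 hu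
      exact hy.2 a' ha' hu
  have h0 : H0 B := by
    refine ⟨hm ν U h.hU h.erg, fun j c c' => ?_, fun j c c' a a' => ?_,
      fun j c c' => ?_, fun j c ε hε => ?_, fun j c ε hε => ?_, fun j g c c' => ?_⟩
    · refine nul_of ν U true X (fun l => (((h.mS l 0 0).inter (h.mN c)).inter
        (mT _ (h.mN c'))).diff (h.mS l c c')) (h.triv c c') fun M d => ?_
      filter_upwards [aN, aZ (B.st j d)] with y h1 h2 hy
      refine ⟨⟨⟨hy.2.2.1, (h1 c).1 hy.1⟩, ?_⟩, hy.2.2.2⟩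
      rw [hn]
      exact (h2 c').1 hy.2.1
    · exact nul_of ν U true X
        (fun l => ((h.mS l _ _).inter (h.mS l _ _)).diff (h.mS l _ _))
        (h.sub c c' a a') fun M d =>
          Eventually.of_forall fun y hy => ⟨⟨hy.1, hy.2.1⟩, hy.2.2⟩
    · refine nul_of ν U true X
        (fun l => (h.mS l c c').inter (mi (h.mN c) (mT _ (h.mN c'))))
        (h.ker c c') fun M d => ?_
      filter_upwards [aN, aZ (B.st j d)] with y h1 h2 hy
      refine ⟨hy.1, fun hc => hy.2 ?_⟩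
      rw [hn] at hc
      exact (h1 c).trans (hc.trans (h2 c').symm)
    · obtain ⟨F, hF⟩ := tot j c ε hε
      exact ⟨F, hF.mono fun M hM => hM.1⟩
    · obtain ⟨F, hF⟩ := tot j c ε hε
      exact ⟨F, hF.mono fun M hM => hM.2⟩
    · exact nul_of ν U true X (fun l => mi (h.mS l _ _) (mT g (h.mS l c c')))
        (sz' g c c') fun M d => Eventually.of_forall fun y hy => hy
  have hF : Flat B := by
    intro j j' a b a' b'
    obtain ⟨φ, h1, h2⟩ := h.flat a b a' b'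
    have hφ : ∀ l, 0 ≤ φ l := fun l => ge_of_tendsto' (h2 l) fun M =>
      av2_nonneg ν M fun _ => measureReal_nonneg
    have h3 : ∀ M' d', limsup (fun M => B.P M (B.pt j' M ⁻¹' B.flatS j M' d' a b a' b')) U =
        ENNReal.ofReal (φ (lab true M' d')) := by
      intro M' d'
      refine ((ENNReal.tendsto_ofReal (h2 (lab true M' d'))).congr fun M => ?_).limsup_eq
      refine (key ν true M X (A := fun l' => {y | y ∈ Sg l' a b ∧
          y ∈ Sg l' ((n (lab true M' d') • sg) a') ((n (lab true M' d') • sg) b') ∧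
          ¬ (y ∈ Sg (lab true M' d') a a' ↔ X.Tz (n l') y ∈ Sg (lab true M' d') b b')})
        fun l' => (h.mS l' a b).inter ((h.mS l' _ _).inter
        (mi (h.mS _ a a') (mT _ (h.mS _ b b'))))).symm.trans ?_
      change PM (wm ν M) X.μ _ = PM (wm ν M) X.μ _
      congr 1
      ext z
      simp only [mem_ofPred_eq, hn]
      rfl
    have h4 := ENNReal.tendsto_ofReal h1
    rw [ENNReal.ofReal_zero] at h4
    refine h4.congr fun M' => ?_
    rw [← key0 ν true M' hφ]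
    exact lintegral_congr fun d' => (h3 M' d').symm
  have hD : Dec2 B.toBase := by
    obtain ⟨k, hk⟩ := dek ν U X V sg N h.dec
    refine ⟨k, fun c c' => (hk c c').congr fun i => measure_congr ?_⟩
    filter_upwards [aN] with y h1
    exact propext (and_congr (h1 _).symm (not_congr (h1 _).symm))
  have hg : AddSubgroup.closure (range B.a ∪ range B.b) = ⊤ := by
    refine top_le_iff.1 fun k _ => ?_
    have h1 : (1 : ℤ) ∈ AddSubgroup.closure (range B.a ∪ range B.b) :=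
      AddSubgroup.subset_closure (Or.inr ⟨(), rfl⟩)
    simpa using AddSubgroup.zsmul_mem _ h1 k
  refine hA X.X V Unit B hg h0 hF (fun I hI hinv hL => ?_) hD
  have hI1 : X.T ⁻¹' I = I := by
    have := hinv 1
    have e : tz B.T 1 = X.T := funext fun y => T3A.tz_one X.T y
    rwa [e] at this
  have hN : T3x.Nl ν U X fun l => Sg l 0 0 \ I := by
    have h1 : Tendsto (fun M => ENNReal.ofReal (ν.av2 M fun l => X.μ.real (Sg l 0 0 \ I))) U
        (𝓝 0) := by
      refine tendsto_of_tendsto_of_tendsto_of_le_of_le tendsto_const_nhds hL (fun _ => zero_le)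
        fun M => ?_
      exact key_ge ν true M X (fun l => (h.mS l 0 0).diff hI)
        fun d => Eventually.of_forall fun y hy => ⟨fun _ => hy.1, hy.2⟩
    have h2 := (ENNReal.tendsto_toReal ENNReal.zero_ne_top).comp h1
    refine h2.congr fun M => ?_
    exact ENNReal.toReal_ofReal (av2_nonneg ν M fun _ => measureReal_nonneg)
  obtain ⟨c, ε, hε, hc⟩ := h.rel2 I hI hI1 hN
  refine ⟨c, ε, ENNReal.ofReal ε, hε, ENNReal.ofReal_pos.2 hε, fun K => ?_⟩
  obtain ⟨M, hM⟩ := (hc K).exists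
  refine ⟨ν.sp M, ν.w M, ⟨ν.nn M, ν.one M⟩, (ENNReal.ofReal_le_ofReal hM).trans ?_⟩
  rw [ofReal_measureReal]
  refine measure_mono_ae ?_
  filter_upwards [aN] with y h1 hy
  exact ⟨fun hcv => hy.2 (cov_of h1 hcv), hy.1⟩

end

end Pool.Agent.MP_154433_an.T4A.T5B

end PkBr

section PkTop

/-! The algebraic step for dissociated families. -/

set_option autoImplicit false

namespace Pool.Agent.MP_154433_an.T4A.T5B

open T5A

theorem placeX : PlaceO := xPlace (xNon xQm xVal xDual) xUnp (xUnz xQm xDom)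

theorem coreX : T5A.CoreO := T5A.xCore (xMod placeX) xDrift xMark

theorem rowsX : Rows :=
  ⟨xKex, xKa, xKb, xKc, xKd, T3A.xLim, xW1, xW2, xPhb, xKw, xWk, xWa, xCe, xCi, xTri, xCis, xCfl,
    xCit, xCpo, xCpr, xPk, xLam, xLae, xPha, xPhc, xF2, xF3, xF4b, xIid, xXi, xPull, xPush, xInt, xPrj,
    xG5, xG3, xG4, xRli, xT1, xT2, xSel, xSub, xTau, T3A.xMk, xTh, xPsi, xPsr, xSd, xCt,
    xFin (T4A.xCore (xSp (xZl xPig) xQh))⟩

theorem algX : AlgO :=
  algO_of rowsX (xPul2 xNc xShad) xRli2 (xTau2 xNc xT1 xT2 xSel xSub) xPsr2 (xFin2 coreX)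

/-- the integers as an acting group -/
@[reducible] def grpZ : T4x.Grp := { Γ := ℤ, 𝒰 := Set.univ }

theorem mixG [T4x.Grp] (ν : T3x.Wt) (U : Ultrafilter ℕ) (hU : (U : Filter ℕ) ≤ Filter.atTop)
    (he : T3x.ERG ν) : Mix T4x.Γ (T3A.wm ν) U :=
  mix_of T4x.basX.t ν U hU (T4x.fdX.mix ν he)

theorem algS2 : T5x.AlgS2 := bridge algX xExa (@mixG grpZ) xShz xDek

end Pool.Agent.MP_154433_an.T4A.T5B

end PkTop
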